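import Mathlib

set_option autoImplicit false

/-! two-dimensional Gaussian integrals, and a majorant for the measure of the points where two functions are large
(project PL, job FAR2; helper7) -/

namespace Pool.Agent.V5helper7.PL.FB

open Finset Filter MeasureTheory Topology Complex

lemma gauss2 {b R : ℝ} (hb : 0 < b) :
    Integrable (fun q : ℝ × ℝ => Real.exp (-b * (q.1 ^ 2 + q.2 ^ 2)))
      ((volume.restrict (Set.Icc (-R) R)).prod (volume.restrict (Set.Icc (-R) R))) ∧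
    ∫ q, Real.exp (-b * (q.1 ^ 2 + q.2 ^ 2))
      ∂((volume.restrict (Set.Icc (-R) R)).prod (volume.restrict (Set.Icc (-R) R))) ≤ Real.pi / b := by
  have h1 : (fun q : ℝ × ℝ => Real.exp (-b * (q.1 ^ 2 + q.2 ^ 2))) =
      fun q : ℝ × ℝ => Real.exp (-b * q.1 ^ 2) * Real.exp (-b * q.2 ^ 2) := by
    funext q
    rw [← Real.exp_add]
    congr 1
    ring
  have h2 : IntegrableOn (fun x : ℝ => Real.exp (-b * x ^ 2)) (Set.Icc (-R) R) :=
    (integrable_exp_neg_mul_sq hb).integrableOn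
  rw [h1]
  refine ⟨h2.mul_prod h2, ?_⟩
  rw [integral_prod_mul (fun x : ℝ => Real.exp (-b * x ^ 2)) (fun x : ℝ => Real.exp (-b * x ^ 2))]
  have h3 : ∫ x in Set.Icc (-R) R, Real.exp (-b * x ^ 2) ≤ Real.sqrt (Real.pi / b) := by
    rw [← integral_gaussian b]
    exact setIntegral_le_integral (integrable_exp_neg_mul_sq hb)
      (Eventually.of_forall fun x => (Real.exp_pos _).le)
  have h4 : 0 ≤ ∫ x in Set.Icc (-R) R, Real.exp (-b * x ^ 2) :=
    integral_nonneg fun x => (Real.exp_pos _).le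
  calc _ ≤ Real.sqrt (Real.pi / b) * Real.sqrt (Real.pi / b) := mul_le_mul h3 h3 h4 (Real.sqrt_nonneg _)
    _ = Real.pi / b := Real.mul_self_sqrt (by positivity)

/-- the one-point function -/
noncomputable def U (V c : ℝ) (φ : ℝ → ℂ) (ξ x : ℝ) : ℂ :=
  φ ξ * ((((x / c) ^ (2 * V) : ℝ) : ℂ) * cexp (((ξ * Real.log (x / c) : ℝ) : ℂ) * I))

lemma norm_U {V c : ℝ} {φ : ℝ → ℂ} {ξ x : ℝ} (hc : 0 < c) (hx : 0 ≤ x) :
    ‖U V c φ ξ x‖ = ‖φ ξ‖ * (x / c) ^ (2 * V) := by
  unfold U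
  rw [norm_mul, norm_mul, Complex.norm_exp_ofReal_mul_I, mul_one, Complex.norm_real,
    Real.norm_of_nonneg (by positivity)]

lemma U_eq {V c : ℝ} {φ : ℝ → ℂ} {ξ x : ℝ} (hc : 0 < c) (hx : 0 < x) :
    U V c φ ξ x = φ ξ * (((c ^ (-(2 * V)) : ℝ) : ℂ) * cexp (((-(ξ * Real.log c) : ℝ) : ℂ) * I)) *
      (x : ℂ) ^ (2 * ((V : ℂ) + ξ / 2 * I)) := by
  unfold U
  have hx' : (x : ℂ) ≠ 0 := by exact_mod_cast hx.ne'
  rw [Complex.cpow_def_of_ne_zero hx', ← Complex.ofReal_log hx.le, Real.div_rpow hx.le hc.le,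
    Real.log_div hx.ne' hc.ne', Real.rpow_def_of_pos hx, Real.rpow_neg hc.le]
  push_cast
  have h1 : cexp ((Real.log x : ℂ) * (2 * ((V : ℂ) + ξ / 2 * I))) =
      cexp (Real.log x * (2 * V)) * cexp (ξ * Real.log x * I) := by
    rw [← Complex.exp_add]
    congr 1
    ring
  have h2 : cexp ((ξ : ℂ) * (Real.log x - Real.log c) * I) =
      cexp (-((ξ : ℂ) * Real.log c) * I) * cexp (ξ * Real.log x * I) := by
    rw [← Complex.exp_add]
    congr 1
    ring
  rw [h1, h2]
  ring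

lemma U_meas {α : Type*} [MeasurableSpace α] {V c : ℝ} {φ : ℝ → ℂ} (hφ : Measurable φ) {f g : α → ℝ}
    (hf : Measurable f) (hg : Measurable g) : Measurable fun a => U V c φ (f a) (g a) := by
  unfold U
  have h2 : Measurable fun a => φ (f a) := hφ.comp hf
  have h3 : Measurable fun a => ((((g a / c) ^ (2 * V) : ℝ)) : ℂ) :=
    Complex.measurable_ofReal.comp ((hg.div_const c).pow_const _)
  have h4 : Measurable fun a => cexp (((f a * Real.log (g a / c) : ℝ) : ℂ) * I) :=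
    Complex.measurable_exp.comp ((Complex.measurable_ofReal.comp
      (hf.mul (Real.measurable_log.comp (hg.div_const c)))).mul_const I)
  exact h2.mul (h3.mul h4)

/-- the measure of the points where two functions are large -/
theorem key {N : Set ℝ} (hN : MeasurableSet N) {X : ℝ} (hNX : N ⊆ Set.Icc 0 X) {z z' : ℝ → ℝ}
    (hz : Continuous z) (hz' : Continuous z') (hz0 : ∀ t ∈ N, 0 < z t) (hz0' : ∀ t ∈ N, 0 < z' t)
    {V c R : ℝ} (hV : 0 < V) (hc : 0 < c) {φ : ℝ → ℂ} (hφ : Continuous φ)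
    {m : ℝ → ℝ} (hm0 : ∀ x, 0 ≤ m x) (hm1 : ∀ x, 0 < x → Real.exp (-(2 * V * x)) ≤ m x)
    (hm2 : ∀ x : ℝ, ((m x : ℝ) : ℂ) = ∫ ξ in Set.Icc (-R) R, φ ξ * cexp (((ξ * x : ℝ) : ℂ) * I))
    {K : ℝ × ℝ → ℝ} (hK : Integrable K ((volume.restrict (Set.Icc (-R) R)).prod (volume.restrict (Set.Icc (-R) R))))
    (hKb : ∀ ξ ξ' : ℝ, |ξ| ≤ R → |ξ'| ≤ R → ‖φ ξ‖ * ‖φ ξ'‖ *
      ‖∫ t in N, (z t : ℂ) ^ (2 * ((V : ℂ) + ξ / 2 * I)) * (z' t : ℂ) ^ (2 * ((V : ℂ) + ξ' / 2 * I))‖ ≤ K (ξ, ξ')) :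
    volume.real (N ∩ {t | c < z t ∧ c < z' t}) ≤
      c ^ (-(4 * V)) * ∫ q, K q ∂((volume.restrict (Set.Icc (-R) R)).prod (volume.restrict (Set.Icc (-R) R))) := by
  set μ := volume.restrict (Set.Icc (-R) R) with hμ
  have hNfin : volume N < ⊤ := (measure_mono hNX).trans_lt (by
    rw [Real.volume_Icc]
    exact ENNReal.ofReal_lt_top)
  have : IsFiniteMeasure (volume.restrict N) := ⟨by rwa [Measure.restrict_apply_univ]⟩
  have : IsFiniteMeasure μ := ⟨by
    rw [hμ, Measure.restrict_apply_univ, Real.volume_Icc]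
    exact ENNReal.ofReal_lt_top⟩
  -- bounds
  obtain ⟨M, hM⟩ := (isCompact_Icc (a := (0:ℝ)) (b := X)).exists_bound_of_continuousOn hz.continuousOn
  obtain ⟨M', hM'⟩ := (isCompact_Icc (a := (0:ℝ)) (b := X)).exists_bound_of_continuousOn hz'.continuousOn
  obtain ⟨Φ, hΦ⟩ := (isCompact_Icc (a := (-R)) (b := R)).exists_bound_of_continuousOn hφ.continuousOn
  -- the function on the product
  set F : ℝ × (ℝ × ℝ) → ℂ := fun p => U V c φ p.2.1 (z p.1) * U V c φ p.2.2 (z' p.1) with hF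
  have hFm : Measurable F := by
    have a1 : Measurable fun p : ℝ × (ℝ × ℝ) => U V c φ p.2.1 (z p.1) :=
      U_meas hφ.measurable (measurable_fst.comp measurable_snd) (hz.measurable.comp measurable_fst)
    have a2 : Measurable fun p : ℝ × (ℝ × ℝ) => U V c φ p.2.2 (z' p.1) :=
      U_meas hφ.measurable (measurable_snd.comp measurable_snd) (hz'.measurable.comp measurable_fst)
    exact a1.mul a2
  have hFb : ∀ t ∈ N, ∀ ξ ∈ Set.Icc (-R) R, ∀ ξ' ∈ Set.Icc (-R) R,
      ‖F (t, (ξ, ξ'))‖ ≤ (|Φ| * (|M| / c) ^ (2 * V)) * (|Φ| * (|M'| / c) ^ (2 * V)) := by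
    intro t ht ξ hξ ξ' hξ'
    simp only [hF]
    rw [norm_mul, norm_U hc (hz0 t ht).le, norm_U hc (hz0' t ht).le]
    have b1 : z t ≤ |M| := ((le_abs_self _).trans (hM t (hNX ht))).trans (le_abs_self _)
    have b2 : z' t ≤ |M'| := ((le_abs_self _).trans (hM' t (hNX ht))).trans (le_abs_self _)
    have b3 := (hΦ ξ hξ).trans (le_abs_self Φ)
    have b4 := (hΦ ξ' hξ').trans (le_abs_self Φ)
    have b5 := hz0 t ht
    have b6 := hz0' t ht
    gcongr
  have hFi : Integrable F ((volume.restrict N).prod (μ.prod μ)) := by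
    refine Integrable.of_bound hFm.aestronglyMeasurable
      ((|Φ| * (|M| / c) ^ (2 * V)) * (|Φ| * (|M'| / c) ^ (2 * V))) ?_
    have e1 : (volume.restrict N).prod (μ.prod μ) =
        ((volume : Measure ℝ).prod ((volume : Measure ℝ).prod (volume : Measure ℝ))).restrict
          (N ×ˢ ((Set.Icc (-R) R) ×ˢ (Set.Icc (-R) R))) := by
      rw [hμ, Measure.prod_restrict, Measure.prod_restrict]
    rw [e1]
    filter_upwards [ae_restrict_mem (hN.prod (measurableSet_Icc.prod measurableSet_Icc))] with p hp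
    exact hFb p.1 hp.1 p.2.1 hp.2.1 p.2.2 hp.2.2
  -- the majorant
  set W : ℝ → ℝ := fun t => ((z t / c) ^ (2 * V) * m (Real.log (z t / c))) *
    ((z' t / c) ^ (2 * V) * m (Real.log (z' t / c))) with hW
  have hW1 : ∀ t, ((W t : ℝ) : ℂ) = ∫ q, F (t, q) ∂(μ.prod μ) := by
    intro t
    simp only [hF]
    rw [integral_prod_mul (fun ξ => U V c φ ξ (z t)) (fun ξ => U V c φ ξ (z' t))]
    have c1 : ∀ x : ℝ, ∫ ξ, U V c φ ξ x ∂μ = (((x / c) ^ (2 * V) * m (Real.log (x / c)) : ℝ) : ℂ) := by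
      intro x
      rw [Complex.ofReal_mul, hm2, ← integral_const_mul]
      refine integral_congr_ae (Eventually.of_forall fun ξ => ?_)
      simp only [U]
      ring
    rw [c1, c1]
    simp only [hW]
    push_cast
    ring
  have hWi : Integrable (fun t => ((W t : ℝ) : ℂ)) (volume.restrict N) := by
    simp_rw [hW1]
    exact hFi.integral_prod_left
  have hWr : Integrable W (volume.restrict N) := by
    have := hWi.re
    simpa using this
  have hW0 : ∀ t ∈ N, 0 ≤ W t := by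
    intro t ht
    have b5 := hz0 t ht
    have b6 := hz0' t ht
    have b7 := hm0 (Real.log (z t / c))
    have b8 := hm0 (Real.log (z' t / c))
    simp only [hW]
    positivity
  have hone : ∀ x : ℝ, c < x → 1 ≤ (x / c) ^ (2 * V) * m (Real.log (x / c)) := by
    intro x hx
    have hx0 : 0 < x := hc.trans hx
    have hxc : 1 < x / c := by rwa [one_lt_div hc]
    have hl : 0 < Real.log (x / c) := Real.log_pos hxc
    have h5 := hm1 _ hl
    have h6 : (x / c) ^ (2 * V) = Real.exp (2 * V * Real.log (x / c)) := by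
      rw [Real.rpow_def_of_pos (by positivity)]
      congr 1
      ring
    calc (1 : ℝ) = Real.exp (2 * V * Real.log (x / c)) * Real.exp (-(2 * V * Real.log (x / c))) := by
          rw [← Real.exp_add, add_neg_cancel, Real.exp_zero]
      _ ≤ _ := by
          rw [h6]
          exact mul_le_mul_of_nonneg_left h5 (Real.exp_pos _).le
  have hSm : MeasurableSet {t | c < z t ∧ c < z' t} :=
    (measurableSet_lt measurable_const hz.measurable).inter (measurableSet_lt measurable_const hz'.measurable)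
  have step1 : volume.real (N ∩ {t | c < z t ∧ c < z' t}) ≤ ∫ t in N, W t := by
    have d1 : volume.real (N ∩ {t | c < z t ∧ c < z' t}) =
        ∫ t in N, ({t | c < z t ∧ c < z' t}.indicator (fun _ => (1:ℝ)) t) := by
      rw [integral_indicator hSm, Measure.restrict_restrict hSm, setIntegral_const, smul_eq_mul, mul_one,
        Set.inter_comm]
    rw [d1]
    refine integral_mono_ae ((integrable_const (1:ℝ)).indicator hSm) hWr ?_
    filter_upwards [ae_restrict_mem hN] with t ht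
    by_cases hS : t ∈ {t | c < z t ∧ c < z' t}
    · rw [Set.indicator_of_mem hS]
      have d2 := hone _ hS.1
      have d3 := hone _ hS.2
      simp only [hW]
      nlinarith
    · rw [Set.indicator_of_notMem hS]
      exact hW0 t ht
  have step2 : ∫ t in N, W t = ‖∫ t in N, ((W t : ℝ) : ℂ)‖ := by
    rw [integral_complex_ofReal, Complex.norm_real, Real.norm_of_nonneg]
    exact setIntegral_nonneg hN hW0
  have step3 : ∫ t in N, ((W t : ℝ) : ℂ) = ∫ q, (∫ t in N, F (t, q)) ∂(μ.prod μ) := by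
    simp_rw [hW1]
    exact integral_integral_swap hFi
  have step4 : ∀ q : ℝ × ℝ, |q.1| ≤ R → |q.2| ≤ R → ‖∫ t in N, F (t, q)‖ ≤ c ^ (-(4 * V)) * K q := by
    intro q h1 h2
    set k1 : ℂ := φ q.1 * (((c ^ (-(2 * V)) : ℝ) : ℂ) * cexp (((-(q.1 * Real.log c) : ℝ) : ℂ) * I)) with hk1
    set k2 : ℂ := φ q.2 * (((c ^ (-(2 * V)) : ℝ) : ℂ) * cexp (((-(q.2 * Real.log c) : ℝ) : ℂ) * I)) with hk2
    have e1 : ∫ t in N, F (t, q) = (k1 * k2) *
        ∫ t in N, (z t : ℂ) ^ (2 * ((V : ℂ) + q.1 / 2 * I)) * (z' t : ℂ) ^ (2 * ((V : ℂ) + q.2 / 2 * I)) := by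
      rw [← integral_const_mul]
      refine setIntegral_congr_fun hN fun t ht => ?_
      simp only [hF]
      rw [U_eq hc (hz0 t ht), U_eq hc (hz0' t ht)]
      ring
    have e2 : ‖k1‖ = ‖φ q.1‖ * c ^ (-(2 * V)) := by
      rw [hk1, norm_mul, norm_mul, Complex.norm_exp_ofReal_mul_I, mul_one, Complex.norm_real,
        Real.norm_of_nonneg (by positivity)]
    have e3 : ‖k2‖ = ‖φ q.2‖ * c ^ (-(2 * V)) := by
      rw [hk2, norm_mul, norm_mul, Complex.norm_exp_ofReal_mul_I, mul_one, Complex.norm_real,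
        Real.norm_of_nonneg (by positivity)]
    have e4 : c ^ (-(4 * V)) = c ^ (-(2 * V)) * c ^ (-(2 * V)) := by
      rw [← Real.rpow_add hc]
      congr 1
      ring
    rw [e1, norm_mul, norm_mul, e2, e3, e4]
    have e5 := hKb q.1 q.2 h1 h2
    calc _ = (c ^ (-(2 * V)) * c ^ (-(2 * V))) * (‖φ q.1‖ * ‖φ q.2‖ *
          ‖∫ t in N, (z t : ℂ) ^ (2 * ((V : ℂ) + q.1 / 2 * I)) * (z' t : ℂ) ^ (2 * ((V : ℂ) + q.2 / 2 * I))‖) := by ring
      _ ≤ _ := mul_le_mul_of_nonneg_left e5 (by positivity)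
  calc volume.real (N ∩ {t | c < z t ∧ c < z' t}) ≤ ∫ t in N, W t := step1
    _ = ‖∫ q, (∫ t in N, F (t, q)) ∂(μ.prod μ)‖ := by rw [step2, step3]
    _ ≤ ∫ q, ‖∫ t in N, F (t, q)‖ ∂(μ.prod μ) := norm_integral_le_integral_norm _
    _ ≤ ∫ q, c ^ (-(4 * V)) * K q ∂(μ.prod μ) := by
        refine integral_mono_of_nonneg (Eventually.of_forall fun q => norm_nonneg _) (hK.const_mul _) ?_
        have e1 : μ.prod μ = ((volume : Measure ℝ).prod (volume : Measure ℝ)).restrict
            ((Set.Icc (-R) R) ×ˢ (Set.Icc (-R) R)) := by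
          rw [hμ, Measure.prod_restrict]
        rw [e1]
        filter_upwards [ae_restrict_mem (measurableSet_Icc.prod measurableSet_Icc)] with q hq
        exact step4 q (abs_le.2 hq.1) (abs_le.2 hq.2)
    _ = _ := integral_const_mul _ _

end Pool.Agent.V5helper7.PL.FB
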