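import Pool.Agent.V5helper7.PL.FA
import Pool.Agent.V5helper7.PL.FB

set_option autoImplicit false

/-! the two-point function: upper bound outside the exceptional set (project PL, job FAR2; helper7) -/

namespace Pool.Agent.V5helper7.PL.FC

open Finset Filter MeasureTheory Topology Complex
open Pool.Agent.N748.MG Pool.Agent.N748.MJ

lemma jm_bd {δ X ε1 R1 h : ℝ} {N : Set ℝ} (hX : 0 ≤ X) (hR1 : 0 ≤ R1)
    (hJ : ∀ (b : Fin 2 → ℂ) (n : Fin 2 → ℤ), (∀ j, ‖b j‖ ≤ R1) → (∀ j, |((n j : ℤ) : ℝ)| ≤ R1) →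
      ‖Complex.exp (-(LM (sp b n) (sm b n) ![0, h] δ)) *
        (∫ t in N, ∏ j, ZZ (riemannZeta (pw δ (t + (![0, h] : Fin 2 → ℝ) j))) (b j) (n j)) -
        X * aV (sp b n) (sm b n) ![0, h]‖ ≤ ε1 * X) (b1 b2 : ℂ) (hb1 : ‖b1‖ ≤ R1) (hb2 : ‖b2‖ ≤ R1) :
    ‖∫ t in N, (mz δ t : ℂ) ^ (2 * b1) * (mz δ (t + h) : ℂ) ^ (2 * b2)‖ ≤
      Real.exp ((LM ![b1, b2] ![b1, b2] ![0, h] δ).re) * (X * (‖aV ![b1, b2] ![b1, b2] ![0, h]‖ + ε1)) := by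
  have h1 := hJ ![b1, b2] (fun _ => 0) (by
    intro j
    fin_cases j
    · exact hb1
    · exact hb2) (by
    intro j
    simpa using hR1)
  rw [SM.sp_zero, SM.sm_zero] at h1
  have h2 : ∀ t : ℝ, ∏ j, ZZ (riemannZeta (pw δ (t + (![0, h] : Fin 2 → ℝ) j))) ((![b1, b2] : Fin 2 → ℂ) j)
      ((fun _ => 0 : Fin 2 → ℤ) j) = (mz δ t : ℂ) ^ (2 * b1) * (mz δ (t + h) : ℂ) ^ (2 * b2) := by
    intro t
    rw [Fin.prod_univ_two]
    simp [ZZ, mz]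
  simp_rw [h2] at h1
  set J := ∫ t in N, (mz δ t : ℂ) ^ (2 * b1) * (mz δ (t + h) : ℂ) ^ (2 * b2) with hJd
  set L := LM ![b1, b2] ![b1, b2] ![0, h] δ with hL
  set A := aV ![b1, b2] ![b1, b2] ![0, h] with hA
  have h3 : ‖Complex.exp (-L) * J‖ ≤ X * (‖A‖ + ε1) := by
    calc ‖Complex.exp (-L) * J‖ = ‖(Complex.exp (-L) * J - X * A) + X * A‖ := by rw [sub_add_cancel]
      _ ≤ ε1 * X + ‖(X : ℂ) * A‖ := (norm_add_le _ _).trans (add_le_add_left h1 _)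
      _ = _ := by
        rw [norm_mul, Complex.norm_real, Real.norm_of_nonneg hX]
        ring
  have h4 : J = Complex.exp L * (Complex.exp (-L) * J) := by
    rw [← mul_assoc, ← Complex.exp_add, add_neg_cancel, Complex.exp_zero, one_mul]
  rw [h4, norm_mul, Complex.norm_exp]
  exact mul_le_mul_of_nonneg_left h3 (Real.exp_pos _).le

lemma norm_b {V ξ R : ℝ} (hV : 0 < V) (hξ : |ξ| ≤ R) : ‖(V : ℂ) + ξ / 2 * I‖ ≤ V + R := by
  refine (norm_add_le _ _).trans ?_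
  have h1 : ‖(ξ : ℂ) / 2 * I‖ = |ξ| / 2 := by
    rw [norm_mul, Complex.norm_I, mul_one, norm_div, Complex.norm_real, Real.norm_eq_abs]
    simp
  rw [h1, Complex.norm_real, Real.norm_of_nonneg hV.le]
  have := abs_nonneg ξ
  linarith

lemma alg1 (L0 x ξ ξ' V : ℝ) : 2 * V ^ 2 * (L0 + x) - (ξ ^ 2 + ξ' ^ 2) * L0 / 4 - ξ * ξ' * x / 2 ≤
    2 * V ^ 2 * (L0 + x) + -((L0 - |x|) / 4) * (ξ ^ 2 + ξ' ^ 2) := by
  have i1 : -(ξ * ξ' * x) ≤ |x| * ((ξ ^ 2 + ξ' ^ 2) / 2) := by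
    calc -(ξ * ξ' * x) ≤ |ξ * ξ' * x| := neg_le_abs _
      _ = |x| * (|ξ| * |ξ'|) := by rw [abs_mul, abs_mul]; ring
      _ ≤ |x| * ((ξ ^ 2 + ξ' ^ 2) / 2) := by
        refine mul_le_mul_of_nonneg_left ?_ (abs_nonneg _)
        rw [← sq_abs ξ, ← sq_abs ξ']
        nlinarith [sq_nonneg (|ξ| - |ξ'|)]
  have e : 2 * V ^ 2 * (L0 + x) + -((L0 - |x|) / 4) * (ξ ^ 2 + ξ' ^ 2) -
      (2 * V ^ 2 * (L0 + x) - (ξ ^ 2 + ξ' ^ 2) * L0 / 4 - ξ * ξ' * x / 2) =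
      (|x| * ((ξ ^ 2 + ξ' ^ 2) / 2) - -(ξ * ξ' * x)) / 2 := by ring
  linarith

lemma alg2 {η lam s : ℝ} (hlam : 0 < lam) (hs : η ^ 2 ≤ s) :
    -(lam / 4) * s ≤ -(η ^ 2 * lam / 8) + -(lam / 8) * s := by
  have := mul_le_mul_of_nonneg_left hs hlam.le
  linarith

lemma alg3 {η ξ ξ' : ℝ} (hη : 0 < η) (h : ¬ (|ξ| ≤ η ∧ |ξ'| ≤ η)) : η ^ 2 ≤ ξ ^ 2 + ξ' ^ 2 := by
  rw [not_and_or, not_le, not_le] at h
  rcases h with h3 | h3
  · have h4 := pow_le_pow_left₀ hη.le h3.le 2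
    rw [sq_abs] at h4
    linarith [sq_nonneg ξ']
  · have h4 := pow_le_pow_left₀ hη.le h3.le 2
    rw [sq_abs] at h4
    linarith [sq_nonneg ξ]

theorem core {δ X ε1 R1 h V R η f0 Φ Ca a L0 x c : ℝ} {N : Set ℝ} (hδ : 0 < δ) (hδ1 : δ ≤ 1 / 16) (hX : 0 ≤ X)
    (hV : 0 < V) (hε1 : 0 ≤ ε1) (hR : 0 < R) (hη : 0 < η) (hR1 : V + R ≤ R1) (hN : MeasurableSet N)
    (hNX : N ⊆ Set.Icc 0 X)
    (hnz : ∀ t ∈ N, ∀ j, riemannZeta (pw δ (t + (![0, h] : Fin 2 → ℝ) j)) ≠ 0)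
    (hJ : ∀ (b : Fin 2 → ℂ) (n : Fin 2 → ℤ), (∀ j, ‖b j‖ ≤ R1) → (∀ j, |((n j : ℤ) : ℝ)| ≤ R1) →
      ‖Complex.exp (-(LM (sp b n) (sm b n) ![0, h] δ)) *
        (∫ t in N, ∏ j, ZZ (riemannZeta (pw δ (t + (![0, h] : Fin 2 → ℝ) j))) (b j) (n j)) -
        X * aV (sp b n) (sm b n) ![0, h]‖ ≤ ε1 * X)
    {φ : ℝ → ℂ} (hφ : Continuous φ) {m : ℝ → ℝ} (hm0 : ∀ x, 0 ≤ m x)
    (hm1 : ∀ x, 0 < x → Real.exp (-(2 * V * x)) ≤ m x)
    (hm2 : ∀ x : ℝ, ((m x : ℝ) : ℂ) = ∫ ξ in Set.Icc (-R) R, φ ξ * cexp (((ξ * x : ℝ) : ℂ) * I))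
    (hΦ : ∀ ξ, |ξ| ≤ R → ‖φ ξ‖ ≤ Φ) (hf0 : ∀ ξ, |ξ| ≤ η → ‖φ ξ‖ ≤ f0)
    (ha0 : 0 ≤ a) (hCa : ∀ b1 b2 : ℂ, ‖b1‖ ≤ R1 → ‖b2‖ ≤ R1 → ‖aV ![b1, b2] ![b1, b2] ![0, h]‖ ≤ Ca)
    (hU : ∀ ξ ξ' : ℝ, |ξ| ≤ η → |ξ'| ≤ η → |ξ| ≤ R → |ξ'| ≤ R →
      ‖aV ![(V : ℂ) + ξ / 2 * I, (V : ℂ) + ξ' / 2 * I] ![(V : ℂ) + ξ / 2 * I, (V : ℂ) + ξ' / 2 * I] ![0, h]‖ ≤ a + ε1)
    (hL0 : (LZ (1 + 2 * δ) 0).re = L0) (hx : (LZ (1 + 2 * δ) h).re = x) (hlam : 0 < L0 - |x|) (hc : 0 < c) :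
    volume.real (N ∩ {t | c < mz δ t ∧ c < mz δ (t + h)}) ≤ c ^ (-(4 * V)) * (Real.exp (2 * V ^ 2 * (L0 + x)) * X *
      (f0 ^ 2 * (a + 2 * ε1) * (4 * Real.pi / (L0 - |x|)) +
        Φ ^ 2 * (Ca + ε1) * Real.exp (-(η ^ 2 * (L0 - |x|) / 8)) * (8 * Real.pi / (L0 - |x|)))) := by
  set lam := L0 - |x| with hlamd
  set E := Real.exp (2 * V ^ 2 * (L0 + x)) with hE
  have hE0 : 0 < E := Real.exp_pos _
  have hCa0 : 0 ≤ Ca := (norm_nonneg _).trans (hCa 0 0 (by simp; linarith) (by simp; linarith))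
  have hf00 : 0 ≤ f0 := (norm_nonneg _).trans (hf0 0 (by simpa using hη.le))
  have hΦ0 : 0 ≤ Φ := (norm_nonneg _).trans (hΦ 0 (by simpa using hR.le))
  obtain ⟨g1, g2⟩ := FB.gauss2 (b := lam / 4) (R := R) (by positivity)
  obtain ⟨g3, g4⟩ := FB.gauss2 (b := lam / 8) (R := R) (by positivity)
  set P := f0 ^ 2 * (a + 2 * ε1) with hP
  set Q := Φ ^ 2 * (Ca + ε1) * Real.exp (-(η ^ 2 * lam / 8)) with hQ
  have hP0 : 0 ≤ P := by positivity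
  have hQ0 : 0 ≤ Q := by positivity
  set K : ℝ × ℝ → ℝ := fun q => E * X * (P * Real.exp (-(lam / 4) * (q.1 ^ 2 + q.2 ^ 2)) +
    Q * Real.exp (-(lam / 8) * (q.1 ^ 2 + q.2 ^ 2))) with hK
  have hKi : Integrable K ((volume.restrict (Set.Icc (-R) R)).prod (volume.restrict (Set.Icc (-R) R))) :=
    ((g1.const_mul P).add (g3.const_mul Q)).const_mul (E * X)
  have hz : Continuous fun t : ℝ => mz δ t := TMA.cont hδ1
  have hz' : Continuous fun t : ℝ => mz δ (t + h) := hz.comp (by fun_prop)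
  have hz0 : ∀ t ∈ N, 0 < mz δ t := by
    intro t ht
    have := hnz t ht 0
    simp only [Matrix.cons_val_zero, add_zero] at this
    exact norm_pos_iff.2 this
  have hz0' : ∀ t ∈ N, 0 < mz δ (t + h) := by
    intro t ht
    have := hnz t ht 1
    simp only [Matrix.cons_val_one] at this
    exact norm_pos_iff.2 this
  have hkey := FB.key (K := K) hN hNX hz hz' hz0 hz0' hV hc hφ hm0 hm1 hm2 hKi (by
    intro ξ ξ' h1 h2
    have n1 := (norm_b hV h1).trans hR1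
    have n2 := (norm_b hV h2).trans hR1
    have e1 := jm_bd hX (by linarith) hJ _ _ n1 n2
    rw [FA.re_LM hδ, hL0, hx] at e1
    have e2 := alg1 L0 x ξ ξ' V
    rw [← hlamd] at e2
    have e3 : Real.exp (2 * V ^ 2 * (L0 + x) - (ξ ^ 2 + ξ' ^ 2) * L0 / 4 - ξ * ξ' * x / 2) ≤
        E * Real.exp (-(lam / 4) * (ξ ^ 2 + ξ' ^ 2)) := by
      rw [hE, ← Real.exp_add]
      exact Real.exp_le_exp.2 e2
    set A := ‖aV ![(V : ℂ) + ξ / 2 * I, (V : ℂ) + ξ' / 2 * I] ![(V : ℂ) + ξ / 2 * I, (V : ℂ) + ξ' / 2 * I] ![0, h]‖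
      with hA
    have hA0 : 0 ≤ A := norm_nonneg _
    have e4 : ‖φ ξ‖ * ‖φ ξ'‖ * ‖∫ t in N, (mz δ t : ℂ) ^ (2 * ((V : ℂ) + ξ / 2 * I)) *
        (mz δ (t + h) : ℂ) ^ (2 * ((V : ℂ) + ξ' / 2 * I))‖ ≤
        (E * X) * ((‖φ ξ‖ * ‖φ ξ'‖ * (A + ε1)) * Real.exp (-(lam / 4) * (ξ ^ 2 + ξ' ^ 2))) := by
      calc _ ≤ ‖φ ξ‖ * ‖φ ξ'‖ * (E * Real.exp (-(lam / 4) * (ξ ^ 2 + ξ' ^ 2)) * (X * (A + ε1))) := by
            refine mul_le_mul_of_nonneg_left (e1.trans ?_) (by positivity)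
            exact mul_le_mul_of_nonneg_right e3 (by positivity)
        _ = _ := by ring
    refine e4.trans ?_
    simp only [hK]
    refine mul_le_mul_of_nonneg_left ?_ (by positivity)
    by_cases hcase : |ξ| ≤ η ∧ |ξ'| ≤ η
    · have j1 : ‖φ ξ‖ * ‖φ ξ'‖ * (A + ε1) ≤ P := by
        have k1 := hf0 ξ hcase.1
        have k2 := hf0 ξ' hcase.2
        have k3 := hU ξ ξ' hcase.1 hcase.2 h1 h2
        calc ‖φ ξ‖ * ‖φ ξ'‖ * (A + ε1) ≤ f0 * f0 * (a + 2 * ε1) := by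
              have : A + ε1 ≤ a + 2 * ε1 := by linarith
              gcongr
          _ = P := by rw [hP]; ring
      have j2 : 0 ≤ Q * Real.exp (-(lam / 8) * (ξ ^ 2 + ξ' ^ 2)) := by positivity
      have j3 := mul_le_mul_of_nonneg_right j1 (Real.exp_pos (-(lam / 4) * (ξ ^ 2 + ξ' ^ 2))).le
      linarith
    · have j0 : η ^ 2 ≤ ξ ^ 2 + ξ' ^ 2 := alg3 hη hcase
      have j1 : Real.exp (-(lam / 4) * (ξ ^ 2 + ξ' ^ 2)) ≤
          Real.exp (-(η ^ 2 * lam / 8)) * Real.exp (-(lam / 8) * (ξ ^ 2 + ξ' ^ 2)) := by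
        rw [← Real.exp_add]
        exact Real.exp_le_exp.2 (alg2 hlam j0)
      have j2 : ‖φ ξ‖ * ‖φ ξ'‖ * (A + ε1) ≤ Φ ^ 2 * (Ca + ε1) := by
        have k1 := hΦ ξ h1
        have k2 := hΦ ξ' h2
        have k3 := hCa _ _ n1 n2
        calc ‖φ ξ‖ * ‖φ ξ'‖ * (A + ε1) ≤ Φ * Φ * (Ca + ε1) := by
              have : A + ε1 ≤ Ca + ε1 := by linarith
              gcongr
          _ = _ := by ring
      have j3 : 0 ≤ P * Real.exp (-(lam / 4) * (ξ ^ 2 + ξ' ^ 2)) := by positivity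
      calc ‖φ ξ‖ * ‖φ ξ'‖ * (A + ε1) * Real.exp (-(lam / 4) * (ξ ^ 2 + ξ' ^ 2))
          ≤ (Φ ^ 2 * (Ca + ε1)) * (Real.exp (-(η ^ 2 * lam / 8)) * Real.exp (-(lam / 8) * (ξ ^ 2 + ξ' ^ 2))) := by
            gcongr
        _ = Q * Real.exp (-(lam / 8) * (ξ ^ 2 + ξ' ^ 2)) := by rw [hQ]; ring
        _ ≤ _ := by linarith)
  refine hkey.trans (mul_le_mul_of_nonneg_left ?_ (Real.rpow_pos_of_pos hc _).le)
  have e1 : ∫ q, K q ∂((volume.restrict (Set.Icc (-R) R)).prod (volume.restrict (Set.Icc (-R) R))) =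
      E * X * (P * (∫ q : ℝ × ℝ, Real.exp (-(lam / 4) * (q.1 ^ 2 + q.2 ^ 2))
        ∂((volume.restrict (Set.Icc (-R) R)).prod (volume.restrict (Set.Icc (-R) R)))) +
        Q * (∫ q : ℝ × ℝ, Real.exp (-(lam / 8) * (q.1 ^ 2 + q.2 ^ 2))
        ∂((volume.restrict (Set.Icc (-R) R)).prod (volume.restrict (Set.Icc (-R) R))))) := by
    simp only [hK]
    rw [integral_const_mul, integral_add (g1.const_mul P) (g3.const_mul Q), integral_const_mul, integral_const_mul]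
  rw [e1]
  refine mul_le_mul_of_nonneg_left ?_ (by positivity)
  have e2 : Real.pi / (lam / 4) = 4 * Real.pi / lam := by field_simp
  have e3 : Real.pi / (lam / 8) = 8 * Real.pi / lam := by field_simp
  rw [e2] at g2
  rw [e3] at g4
  exact add_le_add (mul_le_mul_of_nonneg_left g2 hP0) (mul_le_mul_of_nonneg_left g4 hQ0)

/-- the simple bound -/
theorem simple {δ X ε1 R1 h V a L0 x c : ℝ} {N : Set ℝ} (hδ : 0 < δ) (hδ1 : δ ≤ 1 / 16) (hX : 0 ≤ X)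
    (hV : 0 < V) (hR1 : V ≤ R1) (hN : MeasurableSet N)
    (hNX : N ⊆ Set.Icc 0 X)
    (hJ : ∀ (b : Fin 2 → ℂ) (n : Fin 2 → ℤ), (∀ j, ‖b j‖ ≤ R1) → (∀ j, |((n j : ℤ) : ℝ)| ≤ R1) →
      ‖Complex.exp (-(LM (sp b n) (sm b n) ![0, h] δ)) *
        (∫ t in N, ∏ j, ZZ (riemannZeta (pw δ (t + (![0, h] : Fin 2 → ℝ) j))) (b j) (n j)) -
        X * aV (sp b n) (sm b n) ![0, h]‖ ≤ ε1 * X)
    (ha : ‖aV ![(V : ℂ), (V : ℂ)] ![(V : ℂ), (V : ℂ)] ![0, h]‖ ≤ a)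
    (hL0 : (LZ (1 + 2 * δ) 0).re = L0) (hx : (LZ (1 + 2 * δ) h).re = x) (hc : 0 < c) :
    volume.real (N ∩ {t | c < mz δ t ∧ c < mz δ (t + h)}) ≤ c ^ (-(4 * V)) *
      (Real.exp (2 * V ^ 2 * (L0 + x)) * (X * (a + ε1))) := by
  have hz : Continuous fun t : ℝ => mz δ t := TMA.cont hδ1
  have hz' : Continuous fun t : ℝ => mz δ (t + h) := hz.comp (by fun_prop)
  have hVn : ‖(V : ℂ)‖ ≤ R1 := by
    rw [Complex.norm_real, Real.norm_of_nonneg hV.le]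
    exact hR1
  have e1 := jm_bd hX (by linarith) hJ (V : ℂ) (V : ℂ) hVn hVn
  have e2 := FA.re_LM hδ V 0 0 h
  simp only [Complex.ofReal_zero, zero_div, zero_mul, add_zero] at e2
  rw [e2, hL0, hx] at e1
  have e3 : ∀ t : ℝ, (mz δ t : ℂ) ^ (2 * (V : ℂ)) * (mz δ (t + h) : ℂ) ^ (2 * (V : ℂ)) =
      (((mz δ t) ^ (2 * V) * (mz δ (t + h)) ^ (2 * V) : ℝ) : ℂ) := by
    intro t
    have h1 := TMA.mz_nn δ t
    have h2 := TMA.mz_nn δ (t + h)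
    push_cast
    rw [Complex.ofReal_cpow h1, Complex.ofReal_cpow h2]
    push_cast
    rfl
  simp_rw [e3] at e1
  have hw : Continuous fun t : ℝ => (mz δ t) ^ (2 * V) * (mz δ (t + h)) ^ (2 * V) :=
    (hz.rpow_const fun t => Or.inr (by linarith)).mul (hz'.rpow_const fun t => Or.inr (by linarith))
  have hwi : IntegrableOn (fun t : ℝ => (mz δ t) ^ (2 * V) * (mz δ (t + h)) ^ (2 * V)) N :=
    hw.integrableOn_Icc.mono_set hNX
  have hwn : ∀ t : ℝ, 0 ≤ (mz δ t) ^ (2 * V) * (mz δ (t + h)) ^ (2 * V) := fun t =>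
    mul_nonneg (Real.rpow_nonneg (TMA.mz_nn _ _) _) (Real.rpow_nonneg (TMA.mz_nn _ _) _)
  rw [integral_complex_ofReal, Complex.norm_real, Real.norm_of_nonneg (integral_nonneg hwn)] at e1
  have hSm : MeasurableSet {t | c < mz δ t ∧ c < mz δ (t + h)} :=
    (measurableSet_lt measurable_const hz.measurable).inter (measurableSet_lt measurable_const hz'.measurable)
  have hNfin : volume N < ⊤ := (measure_mono hNX).trans_lt (by
    rw [Real.volume_Icc]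
    exact ENNReal.ofReal_lt_top)
  have : IsFiniteMeasure (volume.restrict N) := ⟨by rwa [Measure.restrict_apply_univ]⟩
  have step1 : volume.real (N ∩ {t | c < mz δ t ∧ c < mz δ (t + h)}) ≤
      ∫ t in N, c ^ (-(4 * V)) * ((mz δ t) ^ (2 * V) * (mz δ (t + h)) ^ (2 * V)) := by
    have d1 : volume.real (N ∩ {t | c < mz δ t ∧ c < mz δ (t + h)}) =
        ∫ t in N, ({t | c < mz δ t ∧ c < mz δ (t + h)}.indicator (fun _ => (1:ℝ)) t) := by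
      rw [integral_indicator hSm, Measure.restrict_restrict hSm, setIntegral_const, smul_eq_mul, mul_one,
        Set.inter_comm]
    rw [d1]
    refine integral_mono_ae ((integrable_const (1:ℝ)).indicator hSm) (hwi.const_mul _) ?_
    refine Eventually.of_forall fun t => ?_
    by_cases hS : t ∈ {t | c < mz δ t ∧ c < mz δ (t + h)}
    · rw [Set.indicator_of_mem hS]
      have d2 : c ^ (2 * V) ≤ mz δ t ^ (2 * V) := Real.rpow_le_rpow hc.le hS.1.le (by linarith)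
      have d3 : c ^ (2 * V) ≤ mz δ (t + h) ^ (2 * V) := Real.rpow_le_rpow hc.le hS.2.le (by linarith)
      have d4 : (1 : ℝ) = c ^ (-(4 * V)) * (c ^ (2 * V) * c ^ (2 * V)) := by
        rw [← Real.rpow_add hc, ← Real.rpow_add hc]
        have : -(4 * V) + (2 * V + 2 * V) = 0 := by ring
        rw [this, Real.rpow_zero]
      show (1 : ℝ) ≤ _
      calc (1 : ℝ) = c ^ (-(4 * V)) * (c ^ (2 * V) * c ^ (2 * V)) := d4
        _ ≤ _ := by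
          refine mul_le_mul_of_nonneg_left ?_ (Real.rpow_pos_of_pos hc _).le
          exact mul_le_mul d2 d3 (Real.rpow_pos_of_pos hc _).le (Real.rpow_nonneg (TMA.mz_nn _ _) _)
    · rw [Set.indicator_of_notMem hS]
      exact mul_nonneg (Real.rpow_pos_of_pos hc _).le (hwn t)
  refine step1.trans ?_
  rw [integral_const_mul]
  refine mul_le_mul_of_nonneg_left (e1.trans ?_) (Real.rpow_pos_of_pos hc _).le
  have e4 : 2 * V ^ 2 * (L0 + x) - (0 ^ 2 + 0 ^ 2) * L0 / 4 - 0 = 2 * V ^ 2 * (L0 + x) := by ring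
  rw [e4]
  have : ‖aV ![(V : ℂ), (V : ℂ)] ![(V : ℂ), (V : ℂ)] ![0, h]‖ + ε1 ≤ a + ε1 := by linarith
  gcongr

end Pool.Agent.V5helper7.PL.FC
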