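import Pool.Agent.N748.MG.Ev

set_option autoImplicit false

/-! small `δ` and the final algebra (project PL, job FAR2; helper7) -/

namespace Pool.Agent.V5helper7.PL.FD

open Finset Filter MeasureTheory Topology Complex
open Pool.Agent.N748.MG

lemma ev_small {P : ℝ → Prop} (h : ∀ᶠ δ in 𝓝[>] (0:ℝ), P δ) : Ev fun _ δ => P δ := by
  obtain ⟨u, hu, hP⟩ := mem_nhdsGT_iff_exists_Ioc_subset.1 h
  have hu0 : 0 < u := hu
  refine ⟨1, min u (1 / 16), one_pos, lt_min hu0 (by norm_num), min_le_right _ _, Eventually.of_forall ?_⟩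
  intro X δ h0 h1 _
  exact hP ⟨h0, h1.trans (min_le_left _ _)⟩

lemma ell_tendsto : Tendsto (fun δ : ℝ => Real.log (1 / (2 * δ))) (𝓝[>] (0:ℝ)) atTop := by
  refine Real.tendsto_log_atTop.comp ?_
  have h1 : Tendsto (fun δ : ℝ => 2 * δ) (𝓝[>] (0:ℝ)) (𝓝[>] (0:ℝ)) := by
    rw [tendsto_nhdsWithin_iff]
    refine ⟨?_, ?_⟩
    · have : Tendsto (fun δ : ℝ => 2 * δ) (𝓝 (0:ℝ)) (𝓝 (2 * 0)) := (continuous_const.mul continuous_id).tendsto 0
      rw [mul_zero] at this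
      exact this.mono_left nhdsWithin_le_nhds
    · filter_upwards [self_mem_nhdsWithin] with δ hδ
      have : (0:ℝ) < δ := hδ
      show (0:ℝ) < 2 * δ
      linarith
  have h2 := tendsto_inv_nhdsGT_zero.comp h1
  refine h2.congr fun δ => ?_
  simp

lemma ev_ell {P : ℝ → Prop} (h : ∀ᶠ l in atTop, P l) : Ev fun _ δ => P (Real.log (1 / (2 * δ))) :=
  ev_small (ell_tendsto.eventually h)

lemma rho_tendsto : Tendsto (fun δ : ℝ => 2 * δ * ‖riemannZeta (((1 + 2 * δ : ℝ) : ℂ) + ((0:ℝ) : ℂ) * I)‖)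
    (𝓝[>] (0:ℝ)) (𝓝 1) := by
  have h1 : Tendsto (fun δ : ℝ => ((1 + 2 * δ : ℝ) : ℂ)) (𝓝[>] (0:ℝ)) (𝓝[≠] 1) := by
    rw [tendsto_nhdsWithin_iff]
    refine ⟨?_, ?_⟩
    · have h2 : Continuous fun δ : ℝ => ((1 + 2 * δ : ℝ) : ℂ) := by fun_prop
      have h3 := h2.tendsto 0
      simp only [mul_zero, add_zero, Complex.ofReal_one] at h3
      exact h3.mono_left nhdsWithin_le_nhds
    · filter_upwards [self_mem_nhdsWithin] with δ hδ
      have h0 : (0:ℝ) < δ := hδ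
      intro h4
      have h5 : ((1 + 2 * δ : ℝ) : ℂ) = ((1 : ℝ) : ℂ) := by
        rw [Complex.ofReal_one]
        exact h4
      have h6 := Complex.ofReal_injective h5
      linarith
  have h2 := (riemannZeta_residue_one.comp h1).norm
  rw [norm_one] at h2
  refine h2.congr' ?_
  filter_upwards [self_mem_nhdsWithin] with δ hδ
  have h0 : (0:ℝ) < δ := hδ
  simp only [Function.comp_apply]
  rw [norm_mul]
  have h7 : ‖((1 + 2 * δ : ℝ) : ℂ) - 1‖ = 2 * δ := by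
    have : ((1 + 2 * δ : ℝ) : ℂ) - 1 = ((2 * δ : ℝ) : ℂ) := by
      push_cast
      ring
    rw [this, Complex.norm_real, Real.norm_of_nonneg (by positivity)]
  rw [h7]
  simp

/-- the algebra of the main case -/
lemma alg {ρ f0 A2 lam l B V q a ε : ℝ} (hlam : 0 < lam) (hl : 0 < l) (hV : 0 < V) (hq : 0 < q) (ha : 0 < a)
    (hρ0 : 0 ≤ ρ) (hρ : ρ ≤ 1 + q) (hll : l ≤ (1 + q) * lam) (hf0 : 0 ≤ f0) (hf : 4 * Real.pi * V * f0 ≤ 1 + q)
    (hA0 : 0 ≤ A2) (hA : A2 ≤ (1 + q) * a) (hB0 : 0 ≤ B) (hB : 32 * Real.pi ^ 2 * V ^ 2 * B ≤ q * a)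
    (hqε : (1 + q) ^ 6 ≤ 1 + ε) :
    ρ * (f0 ^ 2 * A2 * (4 * Real.pi / lam) + B * (8 * Real.pi / lam)) ≤ (1 + ε) * a / (4 * V ^ 2 * Real.pi * l) := by
  have hpi := Real.pi_pos
  rw [le_div_iff₀ (by positivity)]
  have h1 : ρ * (f0 ^ 2 * A2 * (4 * Real.pi / lam) + B * (8 * Real.pi / lam)) * (4 * V ^ 2 * Real.pi * l) =
      ρ * (l / lam) * ((4 * Real.pi * V * f0) ^ 2 * A2 + 32 * Real.pi ^ 2 * V ^ 2 * B) := by
    field_simp
    ring
  have h2 : l / lam ≤ 1 + q := (div_le_iff₀ hlam).2 hll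
  have h3 : (4 * Real.pi * V * f0) ^ 2 * A2 + 32 * Real.pi ^ 2 * V ^ 2 * B ≤ (1 + q) ^ 2 * ((1 + q) * a) + q * a := by
    have h4 : (4 * Real.pi * V * f0) ^ 2 ≤ (1 + q) ^ 2 := pow_le_pow_left₀ (by positivity) hf 2
    exact add_le_add (mul_le_mul h4 hA hA0 (by positivity)) hB
  rw [h1]
  calc ρ * (l / lam) * ((4 * Real.pi * V * f0) ^ 2 * A2 + 32 * Real.pi ^ 2 * V ^ 2 * B)
      ≤ (1 + q) * (1 + q) * ((1 + q) ^ 2 * ((1 + q) * a) + q * a) := by
        have h5 : 0 ≤ l / lam := by positivity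
        have h6 : 0 ≤ (4 * Real.pi * V * f0) ^ 2 * A2 + 32 * Real.pi ^ 2 * V ^ 2 * B := by positivity
        exact mul_le_mul (mul_le_mul hρ h2 h5 (by positivity)) h3 h6 (by positivity)
    _ ≤ (1 + q) ^ 6 * a := by
        have h7 : 0 ≤ (1 + q) ^ 2 * a * (q * ((1 + q) ^ 3 - 1)) := by
          have : 1 ≤ (1 + q) ^ 3 := one_le_pow₀ (by linarith)
          have h8 : 0 ≤ (1 + q) ^ 3 - 1 := by linarith
          positivity
        have h9 : (1 + q) ^ 6 * a - (1 + q) * (1 + q) * ((1 + q) ^ 2 * ((1 + q) * a) + q * a) =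
            (1 + q) ^ 2 * a * (q * ((1 + q) ^ 3 - 1)) := by ring
        linarith
    _ ≤ (1 + ε) * a := mul_le_mul_of_nonneg_right hqε ha.le

lemma six {q : ℝ} (h0 : 0 ≤ q) (h1 : q ≤ 1) : (1 + q) ^ 6 ≤ 1 + 63 * q := by
  have h2 : q ^ 2 ≤ q := by nlinarith
  have h3 : q ^ 3 ≤ q := by nlinarith [pow_nonneg h0 2]
  have h4 : q ^ 4 ≤ q := by nlinarith [pow_nonneg h0 3]
  have h5 : q ^ 5 ≤ q := by nlinarith [pow_nonneg h0 4]
  have h6 : q ^ 6 ≤ q := by nlinarith [pow_nonneg h0 5]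
  have h7 : (1 + q) ^ 6 = 1 + 6 * q + 15 * q ^ 2 + 20 * q ^ 3 + 15 * q ^ 4 + 6 * q ^ 5 + q ^ 6 := by ring
  linarith

/-- logarithms are small -/
lemma ev_log (a b : ℝ) {q : ℝ} (hq : 0 < q) : ∀ᶠ l : ℝ in atTop, a + b * Real.log l ≤ q * l := by
  have h1 : (fun l : ℝ => a + b * Real.log l) =o[atTop] (fun l : ℝ => l) := by
    have h2 : (fun _ : ℝ => a) =o[atTop] (fun l : ℝ => l) := by
      exact Asymptotics.isLittleO_const_id_atTop a
    exact h2.add (Real.isLittleO_log_id_atTop.const_mul_left b)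
  filter_upwards [h1.bound hq, eventually_ge_atTop 0] with l h3 h4
  rw [Real.norm_of_nonneg h4] at h3
  exact (le_abs_self _).trans h3

lemma ev_exp (A : ℝ) {b e : ℝ} (hb : 0 < b) (he : 0 < e) : ∀ᶠ l : ℝ in atTop, A * Real.exp (-(b * l)) ≤ e := by
  have h1 : Tendsto (fun l : ℝ => A * Real.exp (-(b * l))) atTop (𝓝 (A * 0)) := by
    refine Tendsto.const_mul _ (Real.tendsto_exp_neg_atTop_nhds_zero.comp ?_)
    exact tendsto_id.const_mul_atTop hb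
  rw [mul_zero] at h1
  exact h1.eventually_le_const he

end Pool.Agent.V5helper7.PL.FD
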