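import Pool.Agent.V5helper51.PL.Stm
import Pool.Agent.V5helper7.PL.FC
import Pool.Agent.V5helper7.PL.FD
import Pool.Agent.N748.MG.CONT

set_option autoImplicit false

/-! project PL, job FAR2: the pairs of points with large values at distances at least `1` (helper7) -/

namespace Pool.Agent.V5helper7.PL

open Finset Filter MeasureTheory Topology Complex
open Pool.Agent.N748.MG Pool.Agent.N748.MJ Pool.Agent.V5helper51.PL

/-- the deterministic part -/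
theorem far_det {V ε q r c0 Ca ε2 ε3 R η Φ Cz R1 : ℝ} (hV : 0 < V) (hε : 0 < ε) (hr : 0 < r)
    (hrV : aC V = r) (hq0 : 0 < q) (hq6 : (1 + q) ^ 6 ≤ 1 + ε)
    {φ : ℝ → ℂ} {m : ℝ → ℝ} (hR : 0 < R) (hφ : Continuous φ) (hm0 : ∀ x, 0 ≤ m x)
    (hm1 : ∀ x, 0 < x → Real.exp (-(2 * V * x)) ≤ m x)
    (hm2 : ∀ x : ℝ, ((m x : ℝ) : ℂ) = ∫ ξ in Set.Icc (-R) R, φ ξ * Complex.exp (((ξ * x : ℝ) : ℂ) * I))
    (hR1 : R1 = V + R) (hc0 : 0 < c0) (hε20 : 0 < ε2) (hε2 : 2 * ε2 ≤ q * c0) (hε3 : 0 < ε3)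
    (hf0 : 4 * Real.pi * V * (‖φ 0‖ + ε3) ≤ 1 + q) (hη : 0 < η)
    (hΦ : ∀ ξ, |ξ| ≤ R → ‖φ ξ‖ ≤ Φ) (hφη : ∀ ξ, |ξ| ≤ η → ‖φ ξ‖ ≤ ‖φ 0‖ + ε3)
    (hCa0 : 0 < Ca) (hCz : 0 < Cz)
    {X δ h : ℝ} (hX1 : 1 ≤ X) (hδ : 0 < δ) (hδ1 : δ ≤ 1 / 16)
    (hLZ : ∀ u : ℝ, Complex.exp (LZ (1 + 2 * δ) u) = riemannZeta (((1 + 2 * δ : ℝ) : ℂ) + u * I))
    {a : ℝ} (hca : c0 ≤ a) (ha : a2 V V h = a)
    (hCa : ∀ b1 b2 : ℂ, ‖b1‖ ≤ R1 → ‖b2‖ ≤ R1 → ‖a2 b1 b2 h‖ ≤ Ca)
    (hU : ∀ ξ ξ' : ℝ, |ξ| ≤ η → |ξ'| ≤ η → |ξ| ≤ R → |ξ'| ≤ R →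
      ‖a2 ((V : ℂ) + ξ / 2 * I) ((V : ℂ) + ξ' / 2 * I) h‖ ≤ a + ε2)
    {N : Set ℝ} (hN : MeasurableSet N) (hNX : N ⊆ Set.Icc 0 X)
    (hNv : volume (Set.Icc 0 X \ N) ≤ ENNReal.ofReal (δ ^ (2 * V ^ 2 + 2) * X))
    (hnz : ∀ t ∈ N, ∀ j, riemannZeta (pw δ (t + (![0, h] : Fin 2 → ℝ) j)) ≠ 0)
    (hJ : ∀ (b : Fin 2 → ℂ) (n : Fin 2 → ℤ), (∀ j, ‖b j‖ ≤ R1) → (∀ j, |((n j : ℤ) : ℝ)| ≤ R1) →
      ‖Complex.exp (-(LM (sp b n) (sm b n) ![0, h] δ)) *
        (∫ t in N, ∏ j, ZZ (riemannZeta (pw δ (t + (![0, h] : Fin 2 → ℝ) j))) (b j) (n j)) -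
        X * aV (sp b n) (sm b n) ![0, h]‖ ≤ ε2 * X)
    (hzu : z1 δ h ≤ Cz * Real.log (1 / δ))
    (e4 : (2 * δ * ‖riemannZeta (((1 + 2 * δ : ℝ) : ℂ) + ((0:ℝ) : ℂ) * I)‖) ^ (2 * V ^ 2) ≤ 1 + q)
    (e4' : 1 / 2 ≤ 2 * δ * ‖riemannZeta (((1 + 2 * δ : ℝ) : ℂ) + ((0:ℝ) : ℂ) * I)‖)
    (e4'' : (2 * δ * ‖riemannZeta (((1 + 2 * δ : ℝ) : ℂ) + ((0:ℝ) : ℂ) * I)‖) ^ (2 * V ^ 2) ≤ 2)
    (e5 : Real.log 2 + 1 / V ^ 2 * Real.log (Real.log (1 / (2 * δ))) ≤ q / (1 + q) * Real.log (1 / (2 * δ)))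
    (e6 : (Real.log 2 + Real.log (2 * Cz)) + 1 * Real.log (Real.log (1 / (2 * δ))) ≤
      q / (1 + q) * Real.log (1 / (2 * δ)))
    (e7 : 32 * Real.pi ^ 2 * V ^ 2 * (Φ ^ 2 * (Ca + ε2)) *
      Real.exp (-(η ^ 2 / (8 * (1 + q)) * Real.log (1 / (2 * δ)))) ≤ q * c0)
    (e8 : 1 ≤ Real.log (1 / (2 * δ)))
    (e9 : 16 * V ^ 2 * Real.pi * (Ca + ε2) ≤ ε * r ^ 2 * Real.log (1 / (2 * δ)))
    (e10 : δ ≤ ε * r ^ 2 / (4 * V ^ 2 * Real.pi)) :
    volume {t : ℝ | 0 ≤ t ∧ t ≤ X ∧ (2 * δ) ^ (-V) < mz δ t ∧ (2 * δ) ^ (-V) < mz δ (t + h)} ≤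
      ENNReal.ofReal (X * ((ka V δ h + ε) * (1 + ε) * mu V δ ^ 2)) := by
  have hpi := Real.pi_pos
  have hX0 : 0 < X := by linarith
  have h2δ : 0 < 2 * δ := by linarith
  have ha0 : 0 < a := hc0.trans_le hca
  set l := Real.log (1 / (2 * δ)) with hl
  have hl0 : 0 < l := by linarith
  set c := (2 * δ) ^ (-V) with hc
  have hc0' : 0 < c := Real.rpow_pos_of_pos h2δ _
  set L0 := (LZ (1 + 2 * δ) 0).re with hL0
  set x := (LZ (1 + 2 * δ) h).re with hx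
  have hz0 : ‖riemannZeta (((1 + 2 * δ : ℝ) : ℂ) + ((0:ℝ) : ℂ) * I)‖ = Real.exp L0 := by
    rw [← hLZ 0, Complex.norm_exp]
  have hzh : z1 δ h = Real.exp x := by
    unfold z1
    rw [← hLZ h, Complex.norm_exp]
  rw [hz0] at e4 e4' e4''
  set ρ := (2 * δ * Real.exp L0) ^ (2 * V ^ 2) with hρ
  have hρ0 : 0 < ρ := Real.rpow_pos_of_pos (by positivity) _
  set w := (2 * δ) ^ (2 * V ^ 2) with hw
  have hw0 : 0 < w := Real.rpow_pos_of_pos h2δ _
  set Z := z1 δ h ^ (2 * V ^ 2) with hZ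
  have hZe : Z = Real.exp (2 * V ^ 2 * x) := by
    rw [hZ, hzh, ← Real.exp_mul]
    congr 1
    ring
  have hZ0 : 0 < Z := by rw [hZe]; exact Real.exp_pos _
  have hfac : c ^ (-(4 * V)) * Real.exp (2 * V ^ 2 * (L0 + x)) = w * (ρ * Z) := by
    have f1 : c ^ (-(4 * V)) = w * w := by
      rw [hc, hw, ← Real.rpow_mul h2δ.le, ← Real.rpow_add h2δ]
      congr 1
      ring
    have f2 : Real.exp (2 * V ^ 2 * (L0 + x)) = Real.exp (2 * V ^ 2 * L0) * Z := by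
      rw [hZe, ← Real.exp_add]
      congr 1
      ring
    have f3 : ρ = w * Real.exp (2 * V ^ 2 * L0) := by
      rw [hρ, Real.mul_rpow h2δ.le (Real.exp_pos _).le, ← Real.exp_mul, hw]
      congr 2
      ring
    rw [f1, f2, f3]
    ring
  -- the square of mu
  have hmu : mu V δ ^ 2 = r ^ 2 * w / (4 * V ^ 2 * Real.pi * l) := by
    unfold mu
    rw [hrV, Complex.ofReal_re, div_pow, mul_pow, mul_pow, mul_pow, Real.sq_sqrt (by positivity)]
    have : ((2 * δ) ^ V ^ 2) ^ 2 = w := by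
      rw [← Real.rpow_natCast, ← Real.rpow_mul h2δ.le, hw]
      congr 1
      push_cast
      ring
    rw [this]
    congr 1
    ring
  have hka : ka V δ h = a / r ^ 2 * Z := by
    unfold ka
    rw [hrV, ha, Complex.ofReal_re, Complex.ofReal_re]
  have hmu0 : 0 < mu V δ ^ 2 := by rw [hmu]; positivity
  -- the exceptional set
  have hexc : δ ^ (2 * V ^ 2 + 2) * X ≤ X * (ε / 2 * mu V δ ^ 2) := by
    have g1 : δ ^ (2 * V ^ 2 + 2) = δ ^ (2 * V ^ 2) * δ ^ 2 := by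
      rw [Real.rpow_add hδ, Real.rpow_two]
    have g2 : δ ^ (2 * V ^ 2) ≤ w := Real.rpow_le_rpow hδ.le (by linarith) (by positivity)
    have g3 : δ ^ 2 ≤ ε / 2 * (r ^ 2 / (4 * V ^ 2 * Real.pi * l)) := by
      have g4 : l ≤ 1 / (2 * δ) := by
        have := Real.log_le_sub_one_of_pos (show 0 < 1 / (2 * δ) by positivity)
        linarith
      have g5 : δ ^ 2 * l ≤ δ / 2 := by
        calc δ ^ 2 * l ≤ δ ^ 2 * (1 / (2 * δ)) := mul_le_mul_of_nonneg_left g4 (by positivity)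
          _ = δ / 2 := by field_simp
      have g6 : δ * (4 * V ^ 2 * Real.pi) ≤ ε * r ^ 2 := (le_div_iff₀ (by positivity)).1 e10
      have g7 : ε / 2 * (r ^ 2 / (4 * V ^ 2 * Real.pi * l)) = (ε * r ^ 2 / 2) / (4 * V ^ 2 * Real.pi * l) := by
        ring
      rw [g7, le_div_iff₀ (by positivity)]
      calc δ ^ 2 * (4 * V ^ 2 * Real.pi * l) = (δ ^ 2 * l) * (4 * V ^ 2 * Real.pi) := by ring
        _ ≤ δ / 2 * (4 * V ^ 2 * Real.pi) := mul_le_mul_of_nonneg_right g5 (by positivity)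
        _ ≤ ε * r ^ 2 / 2 := by linarith
    rw [g1, hmu]
    calc δ ^ (2 * V ^ 2) * δ ^ 2 * X ≤ w * (ε / 2 * (r ^ 2 / (4 * V ^ 2 * Real.pi * l))) * X := by
          gcongr
      _ = _ := by ring
  -- the main bound
  have hmainb : volume.real (N ∩ {t | c < mz δ t ∧ c < mz δ (t + h)}) ≤
      X * (ka V δ h * (1 + ε) * mu V δ ^ 2 + ε / 2 * mu V δ ^ 2) := by
    by_cases hcase : Z ≤ 1 / l ^ 2
    · have k1 := FC.simple (c := c) (a := a) hδ hδ1 hX0.le hV (by rw [hR1]; linarith) hN hNX hJ (by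
        have : aV ![(V : ℂ), (V : ℂ)] ![(V : ℂ), (V : ℂ)] ![0, h] = a := ha
        rw [this, Complex.norm_real, Real.norm_of_nonneg ha0.le]) rfl rfl hc0'
      have k2 : a ≤ Ca := by
        have hVn : ‖(V : ℂ)‖ ≤ R1 := by
          rw [Complex.norm_real, Real.norm_of_nonneg hV.le, hR1]
          linarith
        have := hCa V V hVn hVn
        rwa [ha, Complex.norm_real, Real.norm_of_nonneg ha0.le] at this
      have k3 : volume.real (N ∩ {t | c < mz δ t ∧ c < mz δ (t + h)}) ≤ X * (ε / 2 * mu V δ ^ 2) := by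
        refine k1.trans ?_
        rw [← mul_assoc, ← hL0, ← hx, hfac, hmu]
        calc w * (ρ * Z) * (X * (a + ε2)) ≤ w * (2 * (1 / l ^ 2)) * (X * (Ca + ε2)) := by
              gcongr
          _ = X * (w * ((16 * V ^ 2 * Real.pi * (Ca + ε2)) / (8 * V ^ 2 * Real.pi * l ^ 2))) := by
              field_simp
              ring
          _ ≤ X * (w * ((ε * r ^ 2 * l) / (8 * V ^ 2 * Real.pi * l ^ 2))) := by
              gcongr
          _ = X * (ε / 2 * (r ^ 2 * w / (4 * V ^ 2 * Real.pi * l))) := by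
              field_simp
              ring
      refine k3.trans (mul_le_mul_of_nonneg_left ?_ hX0.le)
      have : 0 ≤ ka V δ h * (1 + ε) * mu V δ ^ 2 := by
        rw [hka]
        positivity
      linarith
    · rw [not_le] at hcase
      -- |x| is small
      have p1 : -x ≤ 1 / V ^ 2 * Real.log l := by
        have p2 : Real.log (1 / l ^ 2) < 2 * V ^ 2 * x := by
          have := Real.log_lt_log (by positivity) hcase
          rwa [hZe, Real.log_exp] at this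
        rw [one_div, Real.log_inv, Real.log_pow] at p2
        push_cast at p2
        have p3 : V ^ 2 * (-x) ≤ Real.log l := by linarith
        rw [one_div, ← div_eq_inv_mul, le_div_iff₀ (by positivity)]
        linarith
      have p4 : x ≤ Real.log (2 * Cz) + Real.log l := by
        rw [← Real.log_mul (by positivity) hl0.ne', Real.le_log_iff_exp_le (by positivity), ← hzh]
        refine hzu.trans ?_
        have p5 : Real.log (1 / δ) ≤ 2 * l := by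
          have : Real.log (1 / δ) = l + Real.log 2 := by
            rw [hl, ← Real.log_mul (by positivity) (by norm_num)]
            congr 1
            field_simp
          rw [this]
          have := Real.log_two_lt_d9
          linarith
        calc Cz * Real.log (1 / δ) ≤ Cz * (2 * l) := mul_le_mul_of_nonneg_left p5 hCz.le
          _ = 2 * Cz * l := by ring
      have p6 : l - Real.log 2 ≤ L0 := by
        have p7 : 1 / (4 * δ) ≤ Real.exp L0 := by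
          rw [div_le_iff₀ (by positivity)]
          linarith
        have p8 := (Real.le_log_iff_exp_le (Real.exp_pos L0)).2 (le_refl _)
        have p9 := Real.log_le_log (by positivity) p7
        rw [Real.log_exp] at p9
        have p10 : Real.log (1 / (4 * δ)) = l - Real.log 2 := by
          rw [hl, ← Real.log_div (by positivity) (by norm_num)]
          congr 1
          field_simp
          ring
        linarith
      set lam := L0 - |x| with hlam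
      have p11 : l / (1 + q) ≤ lam := by
        have p12 : |x| ≤ q / (1 + q) * l - Real.log 2 := by
          rw [abs_le]
          constructor
          · linarith
          · linarith
        have p13 : l / (1 + q) = l - q / (1 + q) * l := by
          field_simp
          ring
        rw [p13, hlam]
        linarith
      have hlam0 : 0 < lam := lt_of_lt_of_le (by positivity) p11
      have k1 := FC.core (c := c) (a := a) (Ca := Ca) (f0 := ‖φ 0‖ + ε3) (Φ := Φ) hδ hδ1 hX0.le hV hε20.le hR hη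
        (le_of_eq hR1.symm) hN hNX hnz hJ hφ hm0 hm1 hm2 hΦ hφη ha0.le hCa hU rfl rfl hlam0 hc0'
      rw [← hL0, ← hx, ← hlam] at k1
      have hΦ0 : 0 ≤ Φ := (norm_nonneg _).trans (hΦ 0 (by simpa using hR.le))
      have k2 := FD.alg (ρ := ρ) (f0 := ‖φ 0‖ + ε3) (A2 := a + 2 * ε2) (lam := lam) (l := l)
        (B := Φ ^ 2 * (Ca + ε2) * Real.exp (-(η ^ 2 * lam / 8))) (V := V) (q := q) (a := a) (ε := ε)
        hlam0 hl0 hV hq0 ha0 hρ0.le e4 (by
          rw [div_le_iff₀ (by positivity)] at p11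
          linarith) (by positivity) hf0 (by positivity) (by nlinarith) (by positivity) (by
          have q1 : Real.exp (-(η ^ 2 * lam / 8)) ≤ Real.exp (-(η ^ 2 / (8 * (1 + q)) * l)) := by
            apply Real.exp_le_exp.2
            have : η ^ 2 / (8 * (1 + q)) * l = η ^ 2 * (l / (1 + q)) / 8 := by
              field_simp
            rw [this]
            have := mul_le_mul_of_nonneg_left p11 (sq_nonneg η)
            linarith
          calc 32 * Real.pi ^ 2 * V ^ 2 * (Φ ^ 2 * (Ca + ε2) * Real.exp (-(η ^ 2 * lam / 8)))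
              ≤ 32 * Real.pi ^ 2 * V ^ 2 * (Φ ^ 2 * (Ca + ε2) * Real.exp (-(η ^ 2 / (8 * (1 + q)) * l))) := by
                gcongr
            _ = 32 * Real.pi ^ 2 * V ^ 2 * (Φ ^ 2 * (Ca + ε2)) * Real.exp (-(η ^ 2 / (8 * (1 + q)) * l)) := by ring
            _ ≤ q * c0 := e7
            _ ≤ q * a := mul_le_mul_of_nonneg_left hca hq0.le) hq6
      refine k1.trans ?_
      have k3 : c ^ (-(4 * V)) * (Real.exp (2 * V ^ 2 * (L0 + x)) * X *
          ((‖φ 0‖ + ε3) ^ 2 * (a + 2 * ε2) * (4 * Real.pi / lam) +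
            Φ ^ 2 * (Ca + ε2) * Real.exp (-(η ^ 2 * lam / 8)) * (8 * Real.pi / lam))) =
          (w * Z * X) * (ρ * ((‖φ 0‖ + ε3) ^ 2 * (a + 2 * ε2) * (4 * Real.pi / lam) +
            Φ ^ 2 * (Ca + ε2) * Real.exp (-(η ^ 2 * lam / 8)) * (8 * Real.pi / lam))) := by
        rw [← mul_assoc, ← mul_assoc, hfac]
        ring
      rw [k3]
      refine (mul_le_mul_of_nonneg_left k2 (by positivity)).trans ?_
      have k4 : (w * Z * X) * ((1 + ε) * a / (4 * V ^ 2 * Real.pi * l)) = X * (ka V δ h * (1 + ε) * mu V δ ^ 2) := by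
        rw [hka, hmu]
        field_simp
      rw [k4]
      refine mul_le_mul_of_nonneg_left ?_ hX0.le
      have : 0 < ε / 2 * mu V δ ^ 2 := by positivity
      linarith
  -- the conclusion
  have hsub : {t : ℝ | 0 ≤ t ∧ t ≤ X ∧ c < mz δ t ∧ c < mz δ (t + h)} ⊆
      (N ∩ {t | c < mz δ t ∧ c < mz δ (t + h)}) ∪ (Set.Icc 0 X \ N) := by
    intro t ht
    by_cases hN' : t ∈ N
    · exact Or.inl ⟨hN', ht.2.2⟩
    · exact Or.inr ⟨⟨ht.1, ht.2.1⟩, hN'⟩
  have hfin : volume (N ∩ {t | c < mz δ t ∧ c < mz δ (t + h)}) ≠ ⊤ := by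
    refine ne_top_of_le_ne_top ?_ (measure_mono (Set.inter_subset_left.trans hNX))
    rw [Real.volume_Icc]
    exact ENNReal.ofReal_ne_top
  calc volume {t : ℝ | 0 ≤ t ∧ t ≤ X ∧ c < mz δ t ∧ c < mz δ (t + h)}
      ≤ volume (N ∩ {t | c < mz δ t ∧ c < mz δ (t + h)}) + volume (Set.Icc 0 X \ N) :=
        (measure_mono hsub).trans (measure_union_le _ _)
    _ ≤ ENNReal.ofReal (volume.real (N ∩ {t | c < mz δ t ∧ c < mz δ (t + h)})) +
        ENNReal.ofReal (δ ^ (2 * V ^ 2 + 2) * X) := by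
        rw [ofReal_measureReal hfin]
        gcongr
    _ = ENNReal.ofReal (volume.real (N ∩ {t | c < mz δ t ∧ c < mz δ (t + h)}) + δ ^ (2 * V ^ 2 + 2) * X) := by
        rw [ENNReal.ofReal_add measureReal_nonneg (by positivity)]
    _ ≤ _ := by
        apply ENNReal.ofReal_le_ofReal
        refine (add_le_add hmainb hexc).trans ?_
        rw [← mul_add]
        refine mul_le_mul_of_nonneg_left ?_ hX0.le
        have s1 : (ka V δ h + ε) * (1 + ε) * mu V δ ^ 2 = ka V δ h * (1 + ε) * mu V δ ^ 2 + ε * mu V δ ^ 2 +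
            ε * ε * mu V δ ^ 2 := by ring
        have s2 : 0 < ε * ε * mu V δ ^ 2 := by positivity
        linarith

theorem t_FAR2 (hJ : S_JM) (hP : S_POSV) (hL : S_LZB) (hM : S_MAJ) (hU : S_UCV) (hZ : S_ZB2) : S_FAR2 := by
  intro V D ε hV hD hε
  have hpi := Real.pi_pos
  obtain ⟨r, hr, hrV⟩ := (CON.main).2 V
  obtain ⟨c0, C0, hc0, hC0, hP0⟩ := hP 2 V hV.le
  set q : ℝ := min ε 1 / 64 with hq
  have hm : 0 < min ε 1 := lt_min hε one_pos
  have hq0 : 0 < q := by positivity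
  have hq1 : q ≤ 1 := by
    have := min_le_right ε 1
    rw [hq]
    linarith
  have hq6 : (1 + q) ^ 6 ≤ 1 + ε := by
    have h1 := FD.six hq0.le hq1
    have h2 := min_le_left ε 1
    rw [hq] at h1 ⊢
    linarith
  set ε1 : ℝ := q / (4 * V) with hε1
  have hε10 : 0 < ε1 := by positivity
  obtain ⟨R, φ, m, hR, hφ, hφR, hm0, hm1, hm2, hφ0⟩ := hM V ε1 hV hε10
  set R1 := V + R with hR1
  have hR10 : 0 < R1 := by positivity
  obtain ⟨c1, Ca, hc1, hCa, hP1⟩ := hP 2 R1 hR10.le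
  set ε2 := q * c0 / 2 with hε2
  have hε20 : 0 < ε2 := by positivity
  set ε3 := q / (8 * Real.pi * V) with hε3
  have hε30 : 0 < ε3 := by positivity
  obtain ⟨η1, hη1, hU1⟩ := hU R1 ε2 hR10 hε20
  obtain ⟨η2, hη2, hφη⟩ := Metric.continuousAt_iff.1 (hφ.continuousAt (x := 0)) ε3 hε30
  set η := min η1 (η2 / 2) with hη
  have hη0 : 0 < η := lt_min hη1 (by positivity)
  obtain ⟨Φ, hΦ⟩ := (isCompact_Icc (a := (-R)) (b := R)).exists_bound_of_continuousOn hφ.continuousOn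
  obtain ⟨Cz, δz, hCz, hδz, hZ1⟩ := hZ D hD
  have hf0 : 4 * Real.pi * V * (‖φ 0‖ + ε3) ≤ 1 + q := by
    have h1 : 4 * Real.pi * V * ‖φ 0‖ ≤ 1 + q / 2 := by
      calc 4 * Real.pi * V * ‖φ 0‖ = 2 * V * (2 * Real.pi * ‖φ 0‖) := by ring
        _ ≤ 2 * V * (1 / (2 * V) + ε1) := mul_le_mul_of_nonneg_left hφ0 (by positivity)
        _ = 1 + q / 2 := by
          rw [hε1]
          field_simp
          ring
    have h2 : 4 * Real.pi * V * ε3 = q / 2 := by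
      rw [hε3]
      field_simp
      ring
    rw [mul_add, h2]
    linarith
  have E1 := hJ 2 R1 (2 * V ^ 2 + 2) hR10 (by positivity) ε2 hε20
  have E2 : Ev fun X δ => δ ^ (-D) ≤ 1 * X ^ ((1:ℝ) / 2) := Ev.win one_pos (by norm_num)
  have E3 : Ev fun _ δ => δ ≤ δz := Ev.of_le hδz
  have hpw : Tendsto (fun δ : ℝ => (2 * δ * ‖riemannZeta (((1 + 2 * δ : ℝ) : ℂ) + ((0:ℝ) : ℂ) * I)‖) ^ (2 * V ^ 2))
      (𝓝[>] (0:ℝ)) (𝓝 1) := by
    have h1 := FD.rho_tendsto.rpow_const (p := 2 * V ^ 2) (Or.inl one_ne_zero)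
    rwa [Real.one_rpow] at h1
  have E4 := FD.ev_small (hpw.eventually_le_const (show (1:ℝ) < 1 + q by linarith))
  have E4' := FD.ev_small (FD.rho_tendsto.eventually_const_le (show (1:ℝ) / 2 < 1 by norm_num))
  have E4'' := FD.ev_small (hpw.eventually_le_const (show (1:ℝ) < 2 by norm_num))
  have E5 := FD.ev_ell (FD.ev_log (Real.log 2) (1 / V ^ 2) (q := q / (1 + q)) (by positivity))
  have E6 := FD.ev_ell (FD.ev_log (Real.log 2 + Real.log (2 * Cz)) 1 (q := q / (1 + q)) (by positivity))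
  have E7 := FD.ev_ell (FD.ev_exp (32 * Real.pi ^ 2 * V ^ 2 * (Φ ^ 2 * (Ca + ε2))) (b := η ^ 2 / (8 * (1 + q)))
    (e := q * c0) (by positivity) (by positivity))
  have E8 := FD.ev_ell (eventually_ge_atTop (1:ℝ))
  have E9 := FD.ev_ell ((tendsto_id.const_mul_atTop (show 0 < ε * r ^ 2 by positivity)).eventually_ge_atTop
    (16 * V ^ 2 * Real.pi * (Ca + ε2)))
  have E10 : Ev fun _ δ => δ ≤ ε * r ^ 2 / (4 * V ^ 2 * Real.pi) := Ev.of_le (by positivity)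
  refine (E1.and (E2.and (E3.and (E4.and (E4'.and (E4''.and (E5.and (E6.and (E7.and (E8.and
    (E9.and E10))))))))))).mono ?_
  rintro X δ hX1 hδ hδ1 ⟨e1, e2, e3, e4, e4', e4'', e5, e6, e7, e8, e9, e10⟩ h hh1 hhD
  obtain ⟨N, n1, n2, n3, n4, n5⟩ := e1 ![0, h] (by
    intro j
    fin_cases j
    · simpa using Real.rpow_nonneg (by linarith : (0:ℝ) ≤ X) _
    · rw [one_mul] at e2
      exact hhD.trans e2)
  obtain ⟨a, ha1, ha2⟩ := (hP0 ![0, h]).2 (fun _ => V) (fun _ => by rw [abs_of_pos hV])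
  have hvec : (fun j : Fin 2 => (((fun _ => V : Fin 2 → ℝ) j : ℝ) : ℂ)) = ![(V : ℂ), (V : ℂ)] := by
    funext j
    fin_cases j <;> rfl
  have ha : a2 V V h = a := by
    rw [hvec] at ha2
    exact ha2
  have hVn : ‖(V : ℂ)‖ ≤ R1 := by
    rw [Complex.norm_real, Real.norm_of_nonneg hV.le, hR1]
    linarith
  have hCa2 : ∀ b1 b2 : ℂ, ‖b1‖ ≤ R1 → ‖b2‖ ≤ R1 → ‖a2 b1 b2 h‖ ≤ Ca := by
    intro b1 b2 h1 h2
    have h3 : ∀ j : Fin 2, ‖(![b1, b2] : Fin 2 → ℂ) j‖ ≤ R1 := by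
      intro j
      fin_cases j
      · exact h1
      · exact h2
    exact (hP1 ![0, h]).1 ![b1, b2] ![b1, b2] h3 h3
  have hdist : ∀ ξ : ℝ, |ξ| ≤ η → ‖(V : ℂ) + ξ / 2 * I - V‖ ≤ η1 := by
    intro ξ hξ
    have h1 : (V : ℂ) + ξ / 2 * I - V = (ξ : ℂ) / 2 * I := by ring
    rw [h1, norm_mul, Complex.norm_I, mul_one, norm_div, Complex.norm_real, Real.norm_eq_abs]
    have h2 : ‖(2 : ℂ)‖ = 2 := by simp
    rw [h2]
    have h3 : η ≤ η1 := min_le_left _ _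
    have := abs_nonneg ξ
    linarith
  have hU2 : ∀ ξ ξ' : ℝ, |ξ| ≤ η → |ξ'| ≤ η → |ξ| ≤ R → |ξ'| ≤ R →
      ‖a2 ((V : ℂ) + ξ / 2 * I) ((V : ℂ) + ξ' / 2 * I) h‖ ≤ a + ε2 := by
    intro ξ ξ' h1 h2 h3 h4
    have h5 := hU1 ((V : ℂ) + ξ / 2 * I) ((V : ℂ) + ξ' / 2 * I) V V (FC.norm_b hV h3) (FC.norm_b hV h4) hVn hVn
      (hdist ξ h1) (hdist ξ' h2) h
    have h6 : ‖a2 V V h‖ = a := by
      rw [ha, Complex.norm_real, Real.norm_of_nonneg (hc0.le.trans ha1)]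
    have h7 := norm_sub_norm_le (a2 ((V : ℂ) + ξ / 2 * I) ((V : ℂ) + ξ' / 2 * I) h) (a2 V V h)
    rw [h6] at h7
    linarith
  exact far_det (φ := φ) (m := m) (N := N) (a := a) (Cz := Cz) (R := R) (R1 := R1) hV hε hr hrV hq0 hq6 hR hφ hm0 hm1
    hm2 hR1 hc0 hε20 (by rw [hε2]; linarith) hε30 hf0 hη0 (fun ξ hξ => hΦ ξ (abs_le.1 hξ)) (by
      intro ξ hξ
      have h1 : dist ξ 0 < η2 := by
        rw [Real.dist_eq, sub_zero]
        have h3 : η ≤ η2 / 2 := min_le_right _ _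
        linarith
      have h2 := hφη h1
      rw [dist_eq_norm] at h2
      have h3 := norm_sub_norm_le (φ ξ) (φ 0)
      linarith) hCa hCz hX1 hδ hδ1 (fun u => (hL δ hδ hδ1 u).2) ha1 ha hCa2 hU2 n1 n2 n3 n4 n5
    (hZ1 δ hδ e3 h hh1 hhD) e4 e4' e4'' e5 e6 e7 e8 e9 e10

end Pool.Agent.V5helper7.PL
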