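import Pool.Agent.V5helper51.PL.Stm
import Pool.Agent.N748.MJ.POSV

set_option autoImplicit false

/-!
# Job UCV of the project PL: uniform continuity of the arithmetic factor in the exponents
-/

namespace Pool.Agent.V5helper7.PL

open Finset Filter MeasureTheory Topology Complex
open Pool.Agent.N748.MG Pool.Agent.N748.MJ
open Pool.Agent.V5helper51.PL
open Pool.Agent.N748.MJ.POSV (pu bs SV gV_eq bs_cont bs_slit lV_cont cj_cont term_bd sum_px aV_eq)
open Pool.Agent.N748.MG.CON (bb bb_sum)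

/-- the period -/
noncomputable def pe (p : ℕ) : ℝ := 2 * Real.pi / Real.log p

theorem log_pos' {p : ℕ} (hp : p.Prime) : 0 < Real.log p :=
  Real.log_pos (by exact_mod_cast hp.one_lt)

theorem pe_pos {p : ℕ} (hp : p.Prime) : 0 < pe p := by
  have := log_pos' hp
  have := Real.pi_pos
  unfold pe
  positivity

theorem exp_per {p : ℕ} (hp : p.Prime) (z : ℂ) (x : ℝ) (n : ℤ) :
    (p : ℂ) ^ (-(z + ((x + n * pe p : ℝ) : ℂ) * I)) = (p : ℂ) ^ (-(z + (x : ℂ) * I)) := by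
  have hp0 : (p : ℂ) ≠ 0 := by exact_mod_cast hp.ne_zero
  have hl : (Real.log p : ℂ) ≠ 0 := by exact_mod_cast (log_pos' hp).ne'
  rw [Complex.cpow_def_of_ne_zero hp0, Complex.cpow_def_of_ne_zero hp0, ← Complex.natCast_log]
  have e : (Real.log p : ℂ) * (-(z + ((x + n * pe p : ℝ) : ℂ) * I)) =
      (Real.log p : ℂ) * (-(z + (x : ℂ) * I)) + ((-n : ℤ) : ℂ) * (2 * Real.pi * I) := by
    unfold pe
    generalize Real.log (p : ℝ) = L at hl
    push_cast
    field_simp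
    ring
  rw [e, Complex.exp_add, Complex.exp_int_mul_two_pi_mul_I, mul_one]

variable {m : ℕ}

theorem gV_per {p : ℕ} (hp : p.Prime) (s r : Fin m → ℂ) (h h' : Fin m → ℝ) (e : Fin m → ℤ)
    (he : ∀ j, h' j = h j + e j * pe p) : gV s r h' 0 p = gV s r h 0 p := by
  have hl : ∀ (s : Fin m → ℂ) (k : ℕ), lV s h' p k = lV s h p k := by
    intro s k
    unfold lV
    refine Finset.sum_congr rfl fun μ _ => Finset.prod_congr rfl fun j _ => ?_
    congr 1
    have h1 := exp_per hp 0 ((μ j : ℝ) * h j) ((μ j : ℤ) * e j)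
    rw [zero_add, zero_add] at h1
    rw [← h1, he]
    congr 4
    push_cast
    ring
  have hb : ∀ j l, bs p (h' j - h' l) = bs p (h j - h l) := by
    intro j l
    unfold bs pu
    have h1 := exp_per hp ((1 + 2 * (0 : ℝ) : ℝ) : ℂ) (h j - h l) (e j - e l)
    rw [← h1, he, he]
    congr 5
    push_cast
    ring
  rw [gV_eq, gV_eq]
  unfold SV
  simp only [hl, hb]

/-- the two exponents -/
def ex (q : ℂ × ℂ × ℝ) : Fin 2 → ℂ := ![q.1, q.2.1]

/-- the two shifts -/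
def sh (q : ℂ × ℂ × ℝ) : Fin 2 → ℝ := ![0, q.2.2]

theorem ex_cont : Continuous ex := by
  refine continuous_pi fun j => ?_
  fin_cases j
  · exact continuous_fst
  · exact continuous_fst.comp continuous_snd

theorem sh_cont : Continuous sh := by
  refine continuous_pi fun j => ?_
  fin_cases j
  · exact continuous_const
  · exact continuous_snd.comp continuous_snd

/-- the local factor -/
noncomputable def ff (p : ℕ) (q : ℂ × ℂ × ℝ) : ℂ := gV (ex q) (ex q) (sh q) 0 p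

theorem ex_bd {R : ℝ} {b1 b2 : ℂ} (h1 : ‖b1‖ ≤ R) (h2 : ‖b2‖ ≤ R) (h : ℝ) (j : Fin 2) :
    ‖ex (b1, b2, h) j‖ ≤ R := by
  fin_cases j
  · exact h1
  · exact h2

theorem ff_cont {R : ℝ} {k0 : ℕ} (hk0 : ∀ (s : Fin 2 → ℂ) (h : Fin 2 → ℝ), (∀ j, ‖s j‖ ≤ R) →
    ∀ q k : ℕ, 1 ≤ q → ‖lV s h q k‖ ≤ ‖lC (k0 : ℂ) k‖) {p : ℕ} (hp : p.Prime) :
    ContinuousOn (ff p) {q | ‖q.1‖ ≤ R ∧ ‖q.2.1‖ ≤ R} := by
  unfold ff
  simp only [gV_eq]
  refine ContinuousOn.mul (Continuous.continuousOn ?_) ?_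
  · refine continuous_finsetProd _ fun j _ => continuous_finsetProd _ fun l _ => ?_
    have d1 : ∀ j, Continuous fun q : ℂ × ℂ × ℝ => ex q j := fun j => (continuous_apply j).comp ex_cont
    have d3 : ∀ j, Continuous fun q : ℂ × ℂ × ℝ => sh q j := fun j => (continuous_apply j).comp sh_cont
    exact Continuous.cpow (bs_cont ((d3 j).sub (d3 l)) hp) ((d1 j).mul (d1 l)) fun q => bs_slit hp _
  · unfold SV
    refine continuousOn_tsum (u := bb k0 1) (fun n => Continuous.continuousOn ?_) (bb_sum k0 1)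
      fun n q hq => ?_
    · have e1 := lV_cont ex_cont sh_cont hp.ne_zero n
      have e2 := lV_cont (cj_cont ex_cont) sh_cont hp.ne_zero n
      exact (e1.mul (Complex.continuous_conj.comp e2)).mul continuous_const
    · obtain ⟨h1, h2⟩ := hq
      obtain ⟨q1, q2, q3⟩ := q
      exact term_bd hk0 _ (ex_bd h1 h2 q3) (ex_bd h1 h2 q3) hp n

theorem loc {R : ℝ} {k0 : ℕ} (hk0 : ∀ (s : Fin 2 → ℂ) (h : Fin 2 → ℝ), (∀ j, ‖s j‖ ≤ R) →
    ∀ q k : ℕ, 1 ≤ q → ‖lV s h q k‖ ≤ ‖lC (k0 : ℂ) k‖) {p : ℕ} (hp : p.Prime) {ε : ℝ} (hε : 0 < ε) :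
    ∃ η : ℝ, 0 < η ∧ ∀ b1 b2 c1 c2 : ℂ, ‖b1‖ ≤ R → ‖b2‖ ≤ R → ‖c1‖ ≤ R →
    ‖c2‖ ≤ R → ‖b1 - c1‖ ≤ η → ‖b2 - c2‖ ≤ η → ∀ h : ℝ,
    ‖ff p (b1, b2, h) - ff p (c1, c2, h)‖ ≤ ε := by
  set K : Set (ℂ × ℂ × ℝ) := Metric.closedBall 0 R ×ˢ (Metric.closedBall 0 R ×ˢ Set.Icc 0 (pe p))
    with hK
  have hKc : IsCompact K :=
    (isCompact_closedBall _ _).prod ((isCompact_closedBall _ _).prod isCompact_Icc)
  have hc : ContinuousOn (ff p) K := (ff_cont hk0 hp).mono (by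
    rintro ⟨q1, q2, q3⟩ ⟨h1, h2, -⟩
    exact ⟨by simpa using h1, by simpa using h2⟩)
  have hu := hKc.uniformContinuousOn_of_continuous hc
  rw [Metric.uniformContinuousOn_iff] at hu
  obtain ⟨δ, hδ, hu⟩ := hu ε hε
  refine ⟨δ / 2, by positivity, fun b1 b2 c1 c2 g1 g2 g3 g4 g5 g6 h => ?_⟩
  have hP := pe_pos hp
  set n : ℤ := ⌊h / pe p⌋ with hn
  set h' : ℝ := h - n * pe p with hh'
  have hm : h' ∈ Set.Icc 0 (pe p) := by
    have k1 := Int.floor_le (h / pe p)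
    have k2 := Int.lt_floor_add_one (h / pe p)
    rw [le_div_iff₀ hP] at k1
    rw [div_lt_iff₀ hP] at k2
    constructor
    · rw [hh']; linarith
    · rw [hh']; linarith
  have key : ∀ b1 b2 : ℂ, ff p (b1, b2, h) = ff p (b1, b2, h') := by
    intro b1 b2
    unfold ff
    refine gV_per hp _ _ _ _ ![0, n] fun j => ?_
    fin_cases j
    · simp [sh]
    · simp [sh, hh']
  rw [key, key, ← dist_eq_norm]
  refine (hu _ ⟨by simpa using g1, by simpa using g2, hm⟩ _ ⟨by simpa using g3, by simpa using g4, hm⟩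
    ?_).le
  rw [Prod.dist_eq, Prod.dist_eq, dist_self]
  simp only [dist_eq_norm, max_lt_iff]
  exact ⟨by linarith, by linarith, hδ⟩

theorem prod_diff {ι : Type*} (J : Finset ι) (a b : ι → ℂ) (u : ι → ℝ) (ha : ∀ i, ‖a i‖ ≤ u i)
    (hb : ∀ i, ‖b i‖ ≤ u i) : ‖∏ i ∈ J, (1 + a i) - ∏ i ∈ J, (1 + b i)‖ ≤
      (∑ i ∈ J, ‖a i - b i‖) * Real.exp (∑ i ∈ J, u i) := by
  classical
  have hu : ∀ i, 0 ≤ u i := fun i => (norm_nonneg _).trans (ha i)
  have hexp : ∀ (J : Finset ι), ‖∏ i ∈ J, (1 + a i)‖ ≤ Real.exp (∑ i ∈ J, u i) := by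
    intro J
    rw [Real.exp_sum, norm_prod]
    refine Finset.prod_le_prod (fun _ _ => norm_nonneg _) fun i _ => ?_
    refine (norm_add_le _ _).trans ?_
    rw [norm_one]
    have := Real.add_one_le_exp (u i)
    linarith [ha i]
  induction J using Finset.induction_on with
  | empty => simp
  | insert i J hi ih =>
    rw [Finset.prod_insert hi, Finset.prod_insert hi, Finset.sum_insert hi, Finset.sum_insert hi]
    have e : (1 + a i) * ∏ i ∈ J, (1 + a i) - (1 + b i) * ∏ i ∈ J, (1 + b i) =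
        (a i - b i) * ∏ i ∈ J, (1 + a i) +
          (1 + b i) * (∏ i ∈ J, (1 + a i) - ∏ i ∈ J, (1 + b i)) := by ring
    rw [e]
    have h1 : ‖(a i - b i) * ∏ i ∈ J, (1 + a i)‖ ≤ ‖a i - b i‖ * Real.exp (u i + ∑ i ∈ J, u i) := by
      rw [norm_mul]
      refine mul_le_mul_of_nonneg_left ((hexp J).trans ?_) (norm_nonneg _)
      exact Real.exp_le_exp.2 (by linarith [hu i])
    have h2 : ‖(1 + b i) * (∏ i ∈ J, (1 + a i) - ∏ i ∈ J, (1 + b i))‖ ≤
        (∑ i ∈ J, ‖a i - b i‖) * Real.exp (u i + ∑ i ∈ J, u i) := by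
      rw [norm_mul, Real.exp_add]
      have h3 : ‖1 + b i‖ ≤ Real.exp (u i) := by
        refine (norm_add_le _ _).trans ?_
        rw [norm_one]
        have := Real.add_one_le_exp (u i)
        linarith [hb i]
      calc ‖1 + b i‖ * ‖∏ i ∈ J, (1 + a i) - ∏ i ∈ J, (1 + b i)‖ ≤
          Real.exp (u i) * ((∑ i ∈ J, ‖a i - b i‖) * Real.exp (∑ i ∈ J, u i)) :=
            mul_le_mul h3 ih (norm_nonneg _) (Real.exp_pos _).le
        _ = _ := by ring
    refine (norm_add_le _ _).trans ((add_le_add h1 h2).trans (le_of_eq ?_))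
    ring

/-- job UCV -/
theorem t_UCV (hB : S_BND) (hG : S_GVB) : S_UCV := by
  classical
  intro R ε hR hε
  obtain ⟨k0, hk0⟩ := hB 2 R hR.le
  obtain ⟨C, hC0, hC⟩ := hG 2 R hR.le
  set u : Nat.Primes → ℝ := fun p => C / (p : ℝ) ^ 2 with hu
  have hus : Summable u := sum_px C
  have hu0 : ∀ p, 0 ≤ u p := fun p => by positivity
  set U : ℝ := ∑' p, u p with hU
  set E : ℝ := Real.exp U with hE
  have hE0 : 0 < E := Real.exp_pos _
  -- the finite set
  obtain ⟨J, hJ⟩ : ∃ J : Finset Nat.Primes, U - ε / (4 * E) < ∑ p ∈ J, u p := by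
    have h1 := hus.hasSum
    have h2 : ∀ᶠ J : Finset Nat.Primes in atTop, U - ε / (4 * E) < ∑ p ∈ J, u p :=
      h1.eventually (lt_mem_nhds (by
        have : 0 < ε / (4 * E) := by positivity
        linarith))
    exact h2.exists
  set ε2 : ℝ := ε / (2 * (J.card + 1) * E) with hε2
  have hε2' : 0 < ε2 := by positivity
  have hfin : ∀ J : Finset Nat.Primes, ∃ η : ℝ, 0 < η ∧ ∀ p ∈ J, ∀ b1 b2 c1 c2 : ℂ, ‖b1‖ ≤ R →
      ‖b2‖ ≤ R → ‖c1‖ ≤ R → ‖c2‖ ≤ R → ‖b1 - c1‖ ≤ η → ‖b2 - c2‖ ≤ η → ∀ h : ℝ,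
      ‖ff p (b1, b2, h) - ff p (c1, c2, h)‖ ≤ ε2 := by
    intro J
    induction J using Finset.induction_on with
    | empty => exact ⟨1, one_pos, fun p hp => absurd hp (Finset.notMem_empty _)⟩
    | insert p J hp ih =>
      obtain ⟨η, h0, h1⟩ := ih
      obtain ⟨η', h0', h1'⟩ := loc (fun s h hs => (hk0 s h hs).1) p.2 hε2'
      refine ⟨min η η', lt_min h0 h0', fun q hq b1 b2 c1 c2 g1 g2 g3 g4 g5 g6 h => ?_⟩
      rcases Finset.mem_insert.1 hq with rfl | hq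
      · exact h1' b1 b2 c1 c2 g1 g2 g3 g4 (g5.trans (min_le_right _ _))
          (g6.trans (min_le_right _ _)) h
      · exact h1 q hq b1 b2 c1 c2 g1 g2 g3 g4 (g5.trans (min_le_left _ _))
          (g6.trans (min_le_left _ _)) h
  obtain ⟨η, hη, hloc⟩ := hfin J
  refine ⟨η, hη, fun b1 b2 c1 c2 g1 g2 g3 g4 g5 g6 h => ?_⟩
  set a : Nat.Primes → ℂ := fun p => ff p (b1, b2, h) - 1 with ha
  set b : Nat.Primes → ℂ := fun p => ff p (c1, c2, h) - 1 with hb
  have ha' : ∀ p, ‖a p‖ ≤ u p := fun p =>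
    (hC _ _ _ (ex_bd g1 g2 h) (ex_bd g1 g2 h) p p.2 0 le_rfl zero_le_one).1
  have hb' : ∀ p, ‖b p‖ ≤ u p := fun p =>
    (hC _ _ _ (ex_bd g3 g4 h) (ex_bd g3 g4 h) p p.2 0 le_rfl zero_le_one).1
  have hsa : Summable a := Summable.of_norm_bounded hus ha'
  have hsb : Summable b := Summable.of_norm_bounded hus hb'
  have ma := (Complex.multipliable_one_add_of_summable hsa).hasProd
  have mb := (Complex.multipliable_one_add_of_summable hsb).hasProd
  have ea : a2 b1 b2 h = ∏' p, (1 + a p) := aV_eq _ _ _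
  have eb : a2 c1 c2 h = ∏' p, (1 + b p) := aV_eq _ _ _
  rw [ea, eb]
  refine le_of_tendsto (ma.sub mb).norm (Eventually.of_forall fun I => ?_)
  have hsum : ∑ p ∈ I, ‖a p - b p‖ ≤ ε / E := by
    have k1 : ∑ p ∈ I, ‖a p - b p‖ ≤ ∑ p ∈ I ∪ J, ‖a p - b p‖ :=
      Finset.sum_le_sum_of_subset_of_nonneg Finset.subset_union_left fun _ _ _ => norm_nonneg _
    have k2 : ∑ p ∈ I ∪ J, ‖a p - b p‖ = ∑ p ∈ (I ∪ J) \ J, ‖a p - b p‖ + ∑ p ∈ J, ‖a p - b p‖ :=
      (Finset.sum_sdiff Finset.subset_union_right).symm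
    have k3 : ∑ p ∈ J, ‖a p - b p‖ ≤ J.card * ε2 := by
      have : ∑ p ∈ J, ‖a p - b p‖ ≤ ∑ _p ∈ J, ε2 := Finset.sum_le_sum fun p hp => by
        have := hloc p hp b1 b2 c1 c2 g1 g2 g3 g4 g5 g6 h
        simp only [ha, hb]
        rwa [sub_sub_sub_cancel_right]
      rwa [Finset.sum_const, nsmul_eq_mul] at this
    have k4 : ∑ p ∈ (I ∪ J) \ J, ‖a p - b p‖ ≤ 2 * ∑ p ∈ (I ∪ J) \ J, u p := by
      rw [Finset.mul_sum]
      refine Finset.sum_le_sum fun p _ => ?_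
      have := norm_sub_le (a p) (b p)
      linarith [ha' p, hb' p]
    have k5 : ∑ p ∈ (I ∪ J) \ J, u p + ∑ p ∈ J, u p = ∑ p ∈ I ∪ J, u p :=
      Finset.sum_sdiff Finset.subset_union_right
    have k6 : ∑ p ∈ I ∪ J, u p ≤ U := hus.sum_le_tsum _ fun p _ => hu0 p
    have k7 : ∑ p ∈ (I ∪ J) \ J, u p ≤ ε / (4 * E) := by linarith
    have k8 : (J.card : ℝ) * ε2 ≤ ε / (2 * E) := by
      rw [hε2, ← mul_div_assoc, div_le_div_iff₀ (by positivity) (by positivity)]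
      have : 0 < ε * E := by positivity
      nlinarith
    have k9 : ε / E = 2 * (ε / (4 * E)) + ε / (2 * E) := by
      field_simp
      ring
    linarith
  have hexp : Real.exp (∑ p ∈ I, u p) ≤ E := Real.exp_le_exp.2 (hus.sum_le_tsum _ fun p _ => hu0 p)
  calc ‖∏ p ∈ I, (1 + a p) - ∏ p ∈ I, (1 + b p)‖ ≤
      (∑ p ∈ I, ‖a p - b p‖) * Real.exp (∑ p ∈ I, u p) := prod_diff I a b u ha' hb'
    _ ≤ ε / E * E := mul_le_mul hsum hexp (Real.exp_pos _).le (by positivity)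
    _ = ε := by field_simp

end Pool.Agent.V5helper7.PL
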