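import Pool.Agent.N748.MJ.SM

set_option autoImplicit false

/-! the main terms of the two-point function (project PL, job FAR2; helper7) -/

namespace Pool.Agent.V5helper7.PL.FA

open Finset Filter MeasureTheory Topology Complex
open Pool.Agent.N748.MG Pool.Agent.N748.MJ

lemma cpow_conj_nat (p : ℕ) (s : ℂ) : (p : ℂ) ^ ((starRingEnd ℂ) s) = (starRingEnd ℂ) ((p : ℂ) ^ s) := by
  have h := Complex.cpow_conj (p : ℂ) s (by rw [Complex.natCast_arg]; exact Real.pi_pos.ne)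
  rw [Complex.conj_natCast] at h
  exact h

lemma LZ_neg {δ : ℝ} (hδ : 0 < δ) (u : ℝ) : LZ (1 + 2 * δ) (-u) = (starRingEnd ℂ) (LZ (1 + 2 * δ) u) := by
  unfold LZ
  rw [Complex.conj_tsum]
  refine tsum_congr fun p => ?_
  have h1 : (-(((1 + 2 * δ : ℝ) : ℂ) + ((-u : ℝ) : ℂ) * I)) =
      (starRingEnd ℂ) (-(((1 + 2 * δ : ℝ) : ℂ) + (u : ℂ) * I)) := by
    rw [map_neg, map_add, map_mul, Complex.conj_ofReal, Complex.conj_ofReal, Complex.conj_I]
    push_cast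
    ring
  rw [h1, cpow_conj_nat, map_neg, ← Complex.log_conj, map_sub, map_one]
  intro h2
  have hp : (1 : ℝ) < ((p : ℕ) : ℝ) := by exact_mod_cast p.2.one_lt
  have h3 : ‖((p : ℕ) : ℂ) ^ (-(((1 + 2 * δ : ℝ) : ℂ) + (u : ℂ) * I))‖ < 1 := by
    rw [Complex.norm_natCast_cpow_of_pos p.2.pos]
    apply Real.rpow_lt_one_of_one_lt_of_neg hp
    simp
    linarith
  have h4 : (1 - ((p : ℕ) : ℂ) ^ (-(((1 + 2 * δ : ℝ) : ℂ) + (u : ℂ) * I))) ∈ Complex.slitPlane := by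
    left
    rw [Complex.sub_re, Complex.one_re]
    have := (Complex.re_le_norm (((p : ℕ) : ℂ) ^ (-(((1 + 2 * δ : ℝ) : ℂ) + (u : ℂ) * I))))
    linarith
  exact (Complex.mem_slitPlane_iff_arg.1 h4).1 h2

lemma LZ_zero_im {δ : ℝ} (hδ : 0 < δ) : (LZ (1 + 2 * δ) 0).im = 0 := by
  have h := LZ_neg hδ 0
  rw [neg_zero] at h
  exact Complex.conj_eq_iff_im.1 h.symm

lemma re_LM {δ : ℝ} (hδ : 0 < δ) (V ξ ζ h : ℝ) :
    (LM ![(V : ℂ) + ξ / 2 * I, (V : ℂ) + ζ / 2 * I] ![(V : ℂ) + ξ / 2 * I, (V : ℂ) + ζ / 2 * I] ![0, h] δ).re =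
      2 * V ^ 2 * ((LZ (1 + 2 * δ) 0).re + (LZ (1 + 2 * δ) h).re) -
        (ξ ^ 2 + ζ ^ 2) * (LZ (1 + 2 * δ) 0).re / 4 - ξ * ζ * (LZ (1 + 2 * δ) h).re / 2 := by
  unfold LM
  simp only [Fin.sum_univ_two, Matrix.cons_val_zero, Matrix.cons_val_one, sub_self, sub_zero, zero_sub]
  rw [LZ_neg hδ h]
  have h0 := LZ_zero_im hδ
  simp only [Complex.add_re, Complex.mul_re, Complex.add_im, Complex.mul_im, Complex.ofReal_re,
    Complex.ofReal_im, Complex.I_re, Complex.I_im, Complex.conj_re, Complex.conj_im, h0,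
    Complex.div_ofNat_re, Complex.div_ofNat_im]
  ring

end Pool.Agent.V5helper7.PL.FA
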